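import Mathlib

/-!
# Labelled oriented graphs with an extremal corner: free faces in the universal covering

The universal covering of the 2-complex of a labelled oriented graph, given by its cells, and the
collapsing argument for actions of the group on totally ordered sets.
-/

set_option autoImplicit false

namespace Pool.Agent.TH625.LOG

/-- A labelled oriented graph with vertex set `V` and edge set `E`: the edge `e` runs from `ini e`
to `ter e` and carries the label `lab e`, which is a vertex. -/
structure LOG (V E : Type) where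
  ini : E → V
  ter : E → V
  lab : E → V

variable {V E : Type}

/-- The relator of the edge `e`: `x_ini x_lab x_ter⁻¹ x_lab⁻¹`. -/
def LOG.rel (L : LOG V E) (e : E) : FreeGroup V :=
  FreeGroup.of (L.ini e) * FreeGroup.of (L.lab e) * (FreeGroup.of (L.ter e))⁻¹ *
    (FreeGroup.of (L.lab e))⁻¹

/-- The group of `L`: generators `V`, relators `rel e`. -/
abbrev LOG.G (L : LOG V E) : Type := PresentedGroup (Set.range L.rel)

/-- The generator of the group belonging to the vertex `v`. -/
def LOG.gen (L : LOG V E) (v : V) : L.G := PresentedGroup.of v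

/-- The four sides of the 2-cell of the edge `e` read from its base point `1`: the generators. -/
def LOG.sv (L : LOG V E) (e : E) : Fin 4 → V := ![L.ini e, L.lab e, L.lab e, L.ter e]

/-- The four sides of the 2-cell of the edge `e` with base point `1`: the initial points. -/
def LOG.sg (L : LOG V E) (e : E) : Fin 4 → L.G := ![1, L.gen (L.ini e), 1, L.gen (L.lab e)]

/-- The directions in which the boundary of a 2-cell passes through its four sides. -/
def sgn : Fin 4 → ℤ := ![1, 1, -1, -1]

theorem sgn_ne (k : Fin 4) : sgn k ≠ 0 := by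
  fin_cases k <;> simp [sgn]

/-- The side `k` of the 2-cell `(e, h)` of the universal covering: the pair `(v, g)` is the edge
from `g` to `g x_v`. -/
def LOG.side (L : LOG V E) (c : E × L.G) (k : Fin 4) : V × L.G :=
  (L.sv c.1 k, c.2 * L.sg c.1 k)

/-- The boundary operator from the 2-chains to the 1-chains of the universal covering. -/
noncomputable def LOG.bdry (L : LOG V E) (c : (E × L.G) →₀ ℤ) : (V × L.G) →₀ ℤ :=
  c.sum fun d n => ∑ k : Fin 4, Finsupp.single (L.side d k) (sgn k * n)

/-- Reducibility of closed diagrams.  A closed diagram in the universal covering consists of finitely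
many squares `f : F`, every one mapped onto a 2-cell `c f`, the sides of the squares being glued in
pairs (`τ x` is the side glued to the side `x`) such that glued sides are mapped onto the same edge
of the universal covering.  Every such diagram contains two different squares which are glued along
a side and are mirror images of each other with respect to this side. -/
def LOG.Folds (L : LOG V E) : Prop :=
  ∀ (F : Type) [Finite F] [Nonempty F] (c : F → E × L.G) (τ : F × Fin 4 → F × Fin 4),
    (∀ x, τ x ≠ x) → (∀ x, L.side (c (τ x).1) (τ x).2 = L.side (c x.1) x.2) →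
      ∃ x, (τ x).1 ≠ x.1 ∧ c (τ x).1 = c x.1 ∧ (τ x).2 = x.2

/-- Every nonempty finite set of 2-cells of the universal covering has a free side: a side of one of
its 2-cells through which the boundaries of the 2-cells of the set pass only once. -/
def LOG.FreeSides (L : LOG V E) : Prop :=
  ∀ S : Finset (E × L.G), S.Nonempty →
    ∃ d ∈ S, ∃ k : Fin 4, ∀ d' ∈ S, ∀ k' : Fin 4, L.side d' k' = L.side d k → d' = d ∧ k' = k

/-- An extremal corner for every edge, with respect to an action on an ordered set. -/
structure LOG.Test (L : LOG V E) (Ω : Type) [LinearOrder Ω] [MulAction L.G Ω] where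
  w : E → Ω
  c : E → Fin 4
  lt : ∀ (e e' : E) (k' : Fin 4), L.sv e' k' = L.sv e (c e) → (e' ≠ e ∨ k' ≠ c e) →
    (L.sg e (c e))⁻¹ • w e < (L.sg e' k')⁻¹ • w e'

theorem free_side (L : LOG V E) {Ω : Type} [LinearOrder Ω] [MulAction L.G Ω]
    (hΩ : ∀ g : L.G, StrictMono (fun x : Ω => g • x)) (T : L.Test Ω) : L.FreeSides := by
  intro S hS
  obtain ⟨⟨e, h⟩, hd, hmax⟩ := S.exists_max_image (fun d => d.2 • T.w d.1) hS
  refine ⟨(e, h), hd, T.c e, ?_⟩
  rintro ⟨e', h'⟩ hd' k' heq
  unfold LOG.side at heq
  simp only [Prod.mk.injEq] at heq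
  obtain ⟨h1, h2⟩ := heq
  by_cases hcase : e' ≠ e ∨ k' ≠ T.c e
  · exfalso
    have h3 := T.lt e e' k' h1 hcase
    have h4 := hΩ (h * L.sg e (T.c e)) h3
    simp only at h4
    rw [← mul_smul, mul_assoc, mul_inv_cancel, mul_one, ← h2, ← mul_smul, mul_assoc,
      mul_inv_cancel, mul_one] at h4
    exact absurd (hmax (e', h') hd') (not_le.2 h4)
  · push Not at hcase
    obtain ⟨rfl, rfl⟩ := hcase
    have h3 : h' = h := mul_right_cancel h2
    subst h3
    exact ⟨rfl, rfl⟩

theorem bdry_apply_free (L : LOG V E) (c : (E × L.G) →₀ ℤ) (d : E × L.G) (hd : d ∈ c.support)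
    (k : Fin 4)
    (h : ∀ d' ∈ c.support, ∀ k' : Fin 4, L.side d' k' = L.side d k → d' = d ∧ k' = k) :
    L.bdry c (L.side d k) = sgn k * c d := by
  classical
  unfold LOG.bdry Finsupp.sum
  rw [Finset.sum_apply']
  rw [Finset.sum_eq_single d]
  · rw [Finset.sum_apply', Finset.sum_eq_single k]
    · rw [Finsupp.single_eq_same]
    · intro k' _ hk'
      rw [Finsupp.single_eq_of_ne]
      intro heq
      first
        | exact hk' (h d hd k' heq).2
        | exact hk' (h d hd k' heq.symm).2
    · intro hk
      exact absurd (Finset.mem_univ _) hk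
  · intro d' hd' hne
    rw [Finset.sum_apply']
    refine Finset.sum_eq_zero fun k' _ => ?_
    rw [Finsupp.single_eq_of_ne]
    intro heq
    first
      | exact hne (h d' hd' k' heq).1
      | exact hne (h d' hd' k' heq.symm).1
  · intro hn
    exact absurd hd hn

theorem folds (L : LOG V E) (hfree : L.FreeSides) : L.Folds := by
  classical
  intro F _ _ c τ hτ hs
  haveI := Fintype.ofFinite F
  obtain ⟨d, hd, k, hk⟩ := hfree (Finset.univ.image c)
    (Finset.Nonempty.image Finset.univ_nonempty c)
  obtain ⟨f, -, rfl⟩ := Finset.mem_image.1 hd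
  obtain ⟨h1, h2⟩ := hk (c (τ (f, k)).1) (Finset.mem_image_of_mem c (Finset.mem_univ _))
    (τ (f, k)).2 (hs (f, k))
  refine ⟨(f, k), ?_, h1, h2⟩
  intro h3
  exact hτ (f, k) (Prod.ext h3 h2)

theorem bdry_inj (L : LOG V E) (hfree : L.FreeSides)
    (c : (E × L.G) →₀ ℤ) (hc : L.bdry c = 0) : c = 0 := by
  by_contra hne
  obtain ⟨d, hd, k, hk⟩ := hfree c.support (Finsupp.support_nonempty_iff.2 hne)
  have h1 := bdry_apply_free L c d hd k hk
  rw [hc, Finsupp.coe_zero, Pi.zero_apply] at h1
  rcases mul_eq_zero.1 h1.symm with h2 | h2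
  · exact sgn_ne k h2
  · exact (Finsupp.mem_support_iff.1 hd) h2

end Pool.Agent.TH625.LOG
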