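import Pool.Agent.TH625.LOG.Core

/-!
# Cocycles on the coverings of the complex of a labelled oriented graph

Endomorphisms of the fundamental groupoid of the 1-skeleton of a covering which are trivial on
finitely many 2-cells; they exist if every finite set of 2-cells of the covering has a free side.
-/

set_option autoImplicit false

namespace Pool.Agent.TH625.LOG

variable {V E : Type} {A : Type} [Group A]

/-- The side `k` of the 2-cell `(e, a)` of the covering belonging to `ρ : G → A`. -/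
def LOG.sideA (L : LOG V E) (ρ : L.G →* A) (c : E × A) (k : Fin 4) : V × A :=
  (L.sv c.1 k, c.2 * ρ (L.sg c.1 k))

/-- finite sets of 2-cells of the covering have free sides -/
def LOG.FreeSidesA (L : LOG V E) (ρ : L.G →* A) : Prop :=
  ∀ S : Finset (E × A), S.Nonempty →
    ∃ d ∈ S, ∃ k : Fin 4, ∀ d' ∈ S, ∀ k' : Fin 4, L.sideA ρ d' k' = L.sideA ρ d k →
      d' = d ∧ k' = k

/-- the projection of the free group onto the group -/
def LOG.pr (L : LOG V E) : FreeGroup V →* L.G := PresentedGroup.mk (Set.range L.rel)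

theorem mk_of (L : LOG V E) (v : V) : L.pr (FreeGroup.of v) = L.gen v := rfl

theorem mk_rel (L : LOG V E) (e : E) : L.pr (L.rel e) = 1 :=
  PresentedGroup.one_of_mem ⟨e, rfl⟩

theorem gen_rel (L : LOG V E) (e : E) :
    L.gen (L.ini e) * L.gen (L.lab e) = L.gen (L.lab e) * L.gen (L.ter e) := by
  have h : L.pr (FreeGroup.of (L.ini e) * FreeGroup.of (L.lab e) * (FreeGroup.of (L.ter e))⁻¹ *
    (FreeGroup.of (L.lab e))⁻¹) = 1 := mk_rel L e
  simp only [map_mul, map_inv, mk_of] at h
  rw [mul_inv_eq_one, mul_inv_eq_iff_eq_mul] at h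
  exact h

theorem free_sideA (L : LOG V E) (ρ : L.G →* A) {Ω : Type} [LinearOrder Ω] [MulAction A Ω]
    (hΩ : ∀ a : A, StrictMono (fun x : Ω => a • x)) (w : E → Ω) (c : E → Fin 4)
    (hlt : ∀ (e e' : E) (k' : Fin 4), L.sv e' k' = L.sv e (c e) → (e' ≠ e ∨ k' ≠ c e) →
      (ρ (L.sg e (c e)))⁻¹ • w e < (ρ (L.sg e' k'))⁻¹ • w e') : L.FreeSidesA ρ := by
  intro S hS
  obtain ⟨⟨e, h⟩, hd, hmax⟩ := S.exists_max_image (fun d => d.2 • w d.1) hS
  refine ⟨(e, h), hd, c e, ?_⟩
  rintro ⟨e', h'⟩ hd' k' heq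
  unfold LOG.sideA at heq
  simp only [Prod.mk.injEq] at heq
  obtain ⟨h1, h2⟩ := heq
  by_cases hcase : e' ≠ e ∨ k' ≠ c e
  · exfalso
    have h3 := hlt e e' k' h1 hcase
    have h4 := hΩ (h * ρ (L.sg e (c e))) h3
    simp only at h4
    rw [← mul_smul, mul_assoc, mul_inv_cancel, mul_one, ← h2, ← mul_smul, mul_assoc,
      mul_inv_cancel, mul_one] at h4
    exact absurd (hmax (e', h') hd') (not_le.2 h4)
  · push Not at hcase
    obtain ⟨rfl, rfl⟩ := hcase
    have h3 : h' = h := mul_right_cancel h2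
    subst h3
    exact ⟨rfl, rfl⟩

/-- A cocycle on the covering belonging to `ρ : G → A` with values in the free group, over the
identity of the group. -/
structure LOG.Coc (L : LOG V E) (ρ : L.G →* A) where
  c : A → FreeGroup V → FreeGroup V
  mul : ∀ a w w', c a (w * w') = c a w * c (a * ρ (L.pr w)) w'
  pr_c : ∀ a w, L.pr (c a w) = L.pr w

namespace LOG.Coc

variable {L : LOG V E} {ρ : L.G →* A}

theorem one (C : L.Coc ρ) (a : A) : C.c a 1 = 1 := by
  have h := C.mul a 1 1
  rw [mul_one, map_one, map_one, mul_one] at h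
  exact (mul_eq_left.1 h.symm)

theorem inv (C : L.Coc ρ) (a : A) (w : FreeGroup V) :
    C.c a w⁻¹ = (C.c (a * (ρ (L.pr w))⁻¹) w)⁻¹ := by
  have h := C.mul a w⁻¹ w
  rw [inv_mul_cancel, C.one, map_inv, map_inv] at h
  exact eq_inv_of_mul_eq_one_left h.symm

theorem rel (C : L.Coc ρ) (a : A) (e : E) :
    C.c a (L.rel e) = C.c (L.sideA ρ (e, a) 0).2 (FreeGroup.of (L.sideA ρ (e, a) 0).1) *
      C.c (L.sideA ρ (e, a) 1).2 (FreeGroup.of (L.sideA ρ (e, a) 1).1) *
      (C.c (L.sideA ρ (e, a) 3).2 (FreeGroup.of (L.sideA ρ (e, a) 3).1))⁻¹ *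
      (C.c (L.sideA ρ (e, a) 2).2 (FreeGroup.of (L.sideA ρ (e, a) 2).1))⁻¹ := by
  have hg := congrArg ρ (gen_rel L e)
  rw [map_mul, map_mul] at hg
  have s0 : L.sideA ρ (e, a) 0 = (L.ini e, a) := by
    show (L.ini e, a * ρ 1) = (L.ini e, a)
    rw [map_one, mul_one]
  have s1 : L.sideA ρ (e, a) 1 = (L.lab e, a * ρ (L.gen (L.ini e))) := rfl
  have s2 : L.sideA ρ (e, a) 2 = (L.lab e, a) := by
    show (L.lab e, a * ρ 1) = (L.lab e, a)
    rw [map_one, mul_one]
  have s3 : L.sideA ρ (e, a) 3 = (L.ter e, a * ρ (L.gen (L.lab e))) := rfl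
  rw [s0, s1, s2, s3]
  show C.c a (FreeGroup.of (L.ini e) * FreeGroup.of (L.lab e) * (FreeGroup.of (L.ter e))⁻¹ *
    (FreeGroup.of (L.lab e))⁻¹) = _
  rw [C.mul, C.mul, C.mul, C.inv, C.inv]
  simp only [map_mul, map_inv, mk_of]
  have e1 : a * (ρ (L.gen (L.ini e)) * ρ (L.gen (L.lab e))) * (ρ (L.gen (L.ter e)))⁻¹ =
      a * ρ (L.gen (L.lab e)) := by
    rw [hg, mul_assoc, mul_assoc, mul_inv_cancel, mul_one]
  have e2 : a * (ρ (L.gen (L.ini e)) * ρ (L.gen (L.lab e)) * (ρ (L.gen (L.ter e)))⁻¹) *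
      (ρ (L.gen (L.lab e)))⁻¹ = a := by
    rw [hg, mul_assoc, mul_assoc, mul_assoc, mul_inv_cancel_left, mul_inv_cancel, mul_one]
  rw [e1, e2]

/-- the trivial cocycle -/
def triv (L : LOG V E) (ρ : L.G →* A) : L.Coc ρ := ⟨fun _ w => w, fun _ _ _ => rfl, fun _ _ => rfl⟩

/-- composition -/
def comp (C D : L.Coc ρ) : L.Coc ρ where
  c a w := C.c a (D.c a w)
  mul a w w' := by rw [D.mul, C.mul, D.pr_c]
  pr_c a w := by rw [C.pr_c, D.pr_c]

end LOG.Coc

/-- translations of functions -/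
def shiftAut (A X : Type) [Group A] [Group X] : A →* MulAut (A → X) where
  toFun g :=
    { toFun := fun f a => f (a * g)
      invFun := fun f a => f (a * g⁻¹)
      left_inv := fun f => by funext a; simp
      right_inv := fun f => by funext a; simp
      map_mul' := fun _ _ => rfl }
  map_one' := by
    ext f a
    show f (a * 1) = f a
    rw [mul_one]
  map_mul' g h := by
    ext f a
    show f (a * (g * h)) = f (a * g * h)
    rw [mul_assoc]

theorem shiftAut_apply {A X : Type} [Group A] [Group X] (g : A) (f : A → X) (a : A) :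
    shiftAut A X g f a = f (a * g) := rfl

/-- the cocycle with prescribed values on the generators -/
theorem exists_lift (L : LOG V E) (ρ : L.G →* A) (C : V → A → FreeGroup V)
    (hC : ∀ v a, L.pr (C v a) = L.gen v) :
    ∃ c : L.Coc ρ, ∀ v a, c.c a (FreeGroup.of v) = C v a := by
  let Φ : FreeGroup V →* (A → FreeGroup V) ⋊[shiftAut A (FreeGroup V)] A :=
    FreeGroup.lift (fun v => ⟨C v, ρ (L.gen v)⟩)
  have hr : ∀ w, (Φ w).right = ρ (L.pr w) := by
    intro w
    have h : (SemidirectProduct.rightHom.comp Φ) = ρ.comp L.pr := by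
      ext v
      simp only [MonoidHom.comp_apply, SemidirectProduct.rightHom_eq_right]
      show (FreeGroup.lift (fun v => (⟨C v, ρ (L.gen v)⟩ :
        (A → FreeGroup V) ⋊[shiftAut A (FreeGroup V)] A)) (FreeGroup.of v)).right = _
      rw [FreeGroup.lift_apply_of]
      rfl
    exact DFunLike.congr_fun h w
  have hof : ∀ v a, (Φ (FreeGroup.of v)).left a = C v a := by
    intro v a
    show (FreeGroup.lift (fun v => (⟨C v, ρ (L.gen v)⟩ :
        (A → FreeGroup V) ⋊[shiftAut A (FreeGroup V)] A)) (FreeGroup.of v)).left a = _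
    rw [FreeGroup.lift_apply_of]
  have hmul : ∀ a w w', (Φ (w * w')).left a = (Φ w).left a * (Φ w').left (a * ρ (L.pr w)) := by
    intro a w w'
    rw [map_mul, SemidirectProduct.mul_left, Pi.mul_apply, shiftAut_apply, hr]
  have hone : ∀ a, (Φ 1).left a = 1 := by
    intro a
    rw [map_one]; rfl
  have hinv : ∀ a w, (Φ w⁻¹).left a = ((Φ w).left (a * (ρ (L.pr w))⁻¹))⁻¹ := by
    intro a w
    have h := hmul a w⁻¹ w
    have h2 : ρ (L.pr w⁻¹) = (ρ (L.pr w))⁻¹ := by rw [map_inv, map_inv]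
    rw [inv_mul_cancel, hone, h2] at h
    exact eq_inv_of_mul_eq_one_left h.symm
  have hmk : ∀ w a, L.pr ((Φ w).left a) = L.pr w := by
    intro w
    refine FreeGroup.induction_on (C := fun w => ∀ a, L.pr ((Φ w).left a) = L.pr w) w ?_ ?_ ?_ ?_
    · intro a; rw [hone]
    · intro v a; rw [hof, hC]; rfl
    · intro v h a; rw [hinv, map_inv, map_inv, h]
    · intro x y hx hy a; rw [hmul, map_mul, map_mul, hx, hy]
  exact ⟨⟨fun a w => (Φ w).left a, hmul, fun a w => hmk w a⟩, fun v a => hof v a⟩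

/-- the side `k` of a 2-cell expressed by the other sides -/
def LOG.sol (L : LOG V E) (e : E) : Fin 4 → FreeGroup V :=
  ![FreeGroup.of (L.lab e) * FreeGroup.of (L.ter e) * (FreeGroup.of (L.lab e))⁻¹,
    (FreeGroup.of (L.ini e))⁻¹ * FreeGroup.of (L.lab e) * FreeGroup.of (L.ter e),
    FreeGroup.of (L.ini e) * FreeGroup.of (L.lab e) * (FreeGroup.of (L.ter e))⁻¹,
    (FreeGroup.of (L.lab e))⁻¹ * FreeGroup.of (L.ini e) * FreeGroup.of (L.lab e)]

theorem mk_sol (L : LOG V E) (e : E) (k : Fin 4) : L.pr (L.sol e k) = L.gen (L.sv e k) := by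
  have h := gen_rel L e
  fin_cases k
  · show L.pr (FreeGroup.of (L.lab e) * FreeGroup.of (L.ter e) * (FreeGroup.of (L.lab e))⁻¹) =
      L.gen (L.ini e)
    simp only [map_mul, map_inv, mk_of]
    rw [← h, mul_assoc, mul_inv_cancel, mul_one]
  · show L.pr ((FreeGroup.of (L.ini e))⁻¹ * FreeGroup.of (L.lab e) * FreeGroup.of (L.ter e)) =
      L.gen (L.lab e)
    simp only [map_mul, map_inv, mk_of]
    rw [mul_assoc, ← h, inv_mul_cancel_left]
  · show L.pr (FreeGroup.of (L.ini e) * FreeGroup.of (L.lab e) * (FreeGroup.of (L.ter e))⁻¹) =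
      L.gen (L.lab e)
    simp only [map_mul, map_inv, mk_of]
    rw [h, mul_assoc, mul_inv_cancel, mul_one]
  · show L.pr ((FreeGroup.of (L.lab e))⁻¹ * FreeGroup.of (L.ini e) * FreeGroup.of (L.lab e)) =
      L.gen (L.ter e)
    simp only [map_mul, map_inv, mk_of]
    rw [mul_assoc, h, inv_mul_cancel_left]

theorem exists_coc (L : LOG V E) (ρ : L.G →* A) (hfree : L.FreeSidesA ρ) :
    ∀ (n : ℕ) (S : Finset (E × A)), S.card = n →
      ∃ C : L.Coc ρ, ∀ d ∈ S, C.c d.2 (L.rel d.1) = 1 := by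
  classical
  intro n
  induction n with
  | zero =>
    intro S hS
    refine ⟨LOG.Coc.triv L ρ, fun d hd => ?_⟩
    rw [Finset.card_eq_zero.1 hS] at hd
    exact absurd hd (Finset.notMem_empty d)
  | succ n ih =>
    intro S hS
    have hne : S.Nonempty := by
      rw [← Finset.card_pos, hS]; exact Nat.succ_pos n
    obtain ⟨d, hd, k, hk⟩ := hfree S hne
    obtain ⟨C₁, hC₁⟩ := ih (S.erase d) (by rw [Finset.card_erase_of_mem hd, hS]; rfl)
    obtain ⟨D, hD⟩ := exists_lift L ρ
      (fun v a => if (v, a) = L.sideA ρ d k then L.sol d.1 k else FreeGroup.of v) (by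
        intro v a
        split_ifs with h
        · rw [mk_sol]
          have h1 : v = L.sv d.1 k := congrArg Prod.fst h
          rw [h1]
        · rfl)
    have hfree1 : ∀ d' ∈ S, ∀ k', (d' ≠ d ∨ k' ≠ k) →
        D.c (L.sideA ρ d' k').2 (FreeGroup.of (L.sideA ρ d' k').1) =
          FreeGroup.of (L.sideA ρ d' k').1 := by
      intro d' hd' k' hne'
      rw [hD, if_neg]
      intro h
      obtain ⟨h1, h2⟩ := hk d' hd' k' h
      rcases hne' with h3 | h3
      · exact h3 h1
      · exact h3 h2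
    have hself : D.c (L.sideA ρ d k).2 (FreeGroup.of (L.sideA ρ d k).1) = L.sol d.1 k := by
      rw [hD, if_pos rfl]
    refine ⟨C₁.comp D, fun d' hd' => ?_⟩
    show C₁.c d'.2 (D.c d'.2 (L.rel d'.1)) = 1
    by_cases hdd : d' = d
    · subst hdd
      have h1 : D.c d'.2 (L.rel d'.1) = 1 := by
        rw [LOG.Coc.rel D d'.2 d'.1]
        fin_cases k
        · have h1 := hfree1 d' hd 1 (Or.inr (by decide))
          have h2 := hfree1 d' hd 2 (Or.inr (by decide))
          have h3 := hfree1 d' hd 3 (Or.inr (by decide))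
          rw [show ((d'.1, d'.2) : E × A) = d' from rfl, h1, h2, h3]
          erw [hself]
          show FreeGroup.of (L.lab d'.1) * FreeGroup.of (L.ter d'.1) *
            (FreeGroup.of (L.lab d'.1))⁻¹ * FreeGroup.of (L.lab d'.1) *
            (FreeGroup.of (L.ter d'.1))⁻¹ * (FreeGroup.of (L.lab d'.1))⁻¹ = 1
          group
        · have h0 := hfree1 d' hd 0 (Or.inr (by decide))
          have h2 := hfree1 d' hd 2 (Or.inr (by decide))
          have h3 := hfree1 d' hd 3 (Or.inr (by decide))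
          rw [show ((d'.1, d'.2) : E × A) = d' from rfl, h0, h2, h3]
          erw [hself]
          show FreeGroup.of (L.ini d'.1) * ((FreeGroup.of (L.ini d'.1))⁻¹ *
            FreeGroup.of (L.lab d'.1) * FreeGroup.of (L.ter d'.1)) *
            (FreeGroup.of (L.ter d'.1))⁻¹ * (FreeGroup.of (L.lab d'.1))⁻¹ = 1
          group
        · have h0 := hfree1 d' hd 0 (Or.inr (by decide))
          have h1 := hfree1 d' hd 1 (Or.inr (by decide))
          have h3 := hfree1 d' hd 3 (Or.inr (by decide))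
          rw [show ((d'.1, d'.2) : E × A) = d' from rfl, h0, h1, h3]
          erw [hself]
          show FreeGroup.of (L.ini d'.1) * FreeGroup.of (L.lab d'.1) *
            (FreeGroup.of (L.ter d'.1))⁻¹ * (FreeGroup.of (L.ini d'.1) *
            FreeGroup.of (L.lab d'.1) * (FreeGroup.of (L.ter d'.1))⁻¹)⁻¹ = 1
          group
        · have h0 := hfree1 d' hd 0 (Or.inr (by decide))
          have h1 := hfree1 d' hd 1 (Or.inr (by decide))
          have h2 := hfree1 d' hd 2 (Or.inr (by decide))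
          rw [show ((d'.1, d'.2) : E × A) = d' from rfl, h0, h1, h2]
          erw [hself]
          show FreeGroup.of (L.ini d'.1) * FreeGroup.of (L.lab d'.1) *
            ((FreeGroup.of (L.lab d'.1))⁻¹ * FreeGroup.of (L.ini d'.1) *
            FreeGroup.of (L.lab d'.1))⁻¹ * (FreeGroup.of (L.lab d'.1))⁻¹ = 1
          group
      rw [h1, C₁.one]
    · have h1 : D.c d'.2 (L.rel d'.1) = L.rel d'.1 := by
        rw [LOG.Coc.rel D d'.2 d'.1]
        have h0 := hfree1 d' hd' 0 (Or.inl hdd)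
        have h1 := hfree1 d' hd' 1 (Or.inl hdd)
        have h2 := hfree1 d' hd' 2 (Or.inl hdd)
        have h3 := hfree1 d' hd' 3 (Or.inl hdd)
        rw [show ((d'.1, d'.2) : E × A) = d' from rfl, h0, h1, h2, h3]
        rfl
      rw [h1]
      exact hC₁ d' (Finset.mem_erase.2 ⟨hdd, hd'⟩)

end Pool.Agent.TH625.LOG
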