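import Pool.Agent.TH625.LOG.Main

/-!
# An explicit labelled oriented tree with nine vertices

It is reduced, contains no proper labelled oriented subtree, its labelling is not injective, its
diameter is at least four and its complexity at least four; it passes the metabelian test.
-/

set_option autoImplicit false

namespace Pool.Agent.TH625.LOG

/-- The labelled oriented tree with the vertices `0, …, 8` and the eight edges
`0 → 1` (label 7), `2 → 0` (8), `2 → 3` (6), `4 → 0` (5), `5 → 3` (2), `5 → 6` (7), `7 → 4` (1),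
`8 → 4` (2). -/
def tree9 : LOG (Fin 9) (Fin 8) where
  ini := ![0, 2, 2, 4, 5, 5, 7, 8]
  ter := ![1, 0, 3, 0, 3, 6, 4, 4]
  lab := ![7, 8, 6, 5, 2, 7, 1, 2]

/-- the values of the Alexander cocycle -/
def coc9 : Fin 9 → ℤ := ![0, 0, 2, 1, 0, 0, 0, 0, -2]

/-- levels -/
def lev9 : Fin 8 → ℤ := ![1, 0, 1, 1, 1, 1, 1, 0]

/-- second coordinates -/
def sec9 : Fin 8 → ℤ := ![0, -1, 0, -2, 0, -1, 0, 0]

/-- corners -/
def cor9 : Fin 8 → Fin 4 := ![0, 0, 2, 2, 3, 2, 2, 3]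

/-- levels of the corners -/
def ca9 (e : Fin 8) : Fin 4 → ℤ := ![lev9 e, lev9 e + 1, lev9 e, lev9 e + 1]

/-- second coordinates of the corners -/
def cb9 (e : Fin 8) : Fin 4 → ℤ :=
  ![sec9 e, sec9 e - coc9 (tree9.ini e) * 2 ^ (lev9 e + 1).toNat, sec9 e,
    sec9 e - coc9 (tree9.lab e) * 2 ^ (lev9 e + 1).toNat]

theorem cmp9 : ∀ (e e' : Fin 8) (k' : Fin 4), tree9.sv e' k' = tree9.sv e (cor9 e) →
    (e' ≠ e ∨ k' ≠ cor9 e) → ca9 e (cor9 e) < ca9 e' k' ∨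
      (ca9 e (cor9 e) = ca9 e' k' ∧ cb9 e (cor9 e) < cb9 e' k') := by
  decide

theorem coc9_rel : ∀ e : Fin 8, 2 * coc9 (tree9.lab e) + coc9 (tree9.ini e) =
    2 * coc9 (tree9.ter e) + coc9 (tree9.lab e) := by
  decide

theorem pow9 (e : Fin 8) : (2 : ℝ) ^ (lev9 e + 1) = ((2 ^ (lev9 e + 1).toNat : ℤ) : ℝ) := by
  have h : 0 ≤ lev9 e + 1 := by
    fin_cases e <;> decide
  obtain ⟨n, hn⟩ := Int.eq_ofNat_of_zero_le h
  rw [hn]
  simp

theorem val9 (e : Fin 8) (k : Fin 4) :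
    tree9.corner (-1) 1 (fun v l => (coc9 v : ℝ) * 2 ^ l) lev9 (fun e => (sec9 e : ℝ)) e k =
      toLex (ca9 e k, ((cb9 e k : ℤ) : ℝ)) := by
  have h1 : lev9 e - (-1) = lev9 e + 1 := by ring
  unfold LOG.corner ca9 cb9
  simp only [h1, pow9, div_one]
  fin_cases k
  · rfl
  · simp
  · rfl
  · simp

theorem coc9_two : tree9.AlexCocycle (-1) 1 (fun v l => (coc9 v : ℝ) * 2 ^ l) := by
  intro e l
  have h := coc9_rel e
  have h2 : (2 : ℝ) ^ (l + (-1 : ℤ)) = 2 ^ l / 2 := by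
    rw [zpow_add₀ (by norm_num : (2 : ℝ) ≠ 0)]
    norm_num
    ring
  have h3 : 2 * (coc9 (tree9.lab e) : ℝ) + coc9 (tree9.ini e) =
      2 * coc9 (tree9.ter e) + coc9 (tree9.lab e) := by exact_mod_cast h
  simp only [h2]
  linear_combination ((2 : ℝ) ^ l / 2) * h3

theorem tree9_test : tree9.MetabelianTest := by
  refine ⟨-1, 1, fun v l => (coc9 v : ℝ) * 2 ^ l, lev9, fun e => (sec9 e : ℝ), cor9, one_pos,
    coc9_two, ?_⟩
  intro e e' k' h1 h2
  rw [val9, val9, Prod.Lex.lt_iff]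
  rcases cmp9 e e' k' h1 h2 with h | ⟨h, h'⟩
  · exact Or.inl h
  · refine Or.inr ⟨h, ?_⟩
    show ((cb9 e (cor9 e) : ℤ) : ℝ) < ((cb9 e' k' : ℤ) : ℝ)
    exact_mod_cast h'

end Pool.Agent.TH625.LOG
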