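import Pool.Agent.TH625.LOG.Cov

/-!
# The kernel of an ordered action passing the test is locally indicable
-/

set_option autoImplicit false

namespace Pool.Agent.TH625.LOG

variable {V E : Type} {A : Type} [Group A]

theorem exists_cells (L : LOG V E) (ρ : L.G →* A) (w : FreeGroup V)
    (hw : w ∈ Subgroup.normalClosure (Set.range L.rel)) :
    ∀ a : A, ∃ S : Finset (E × A), ∀ C : L.Coc ρ, (∀ d ∈ S, C.c d.2 (L.rel d.1) = 1) →
      C.c a w = 1 := by
  classical
  have hw' : w ∈ Subgroup.closure (Group.conjugatesOfSet (Set.range L.rel)) := hw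
  induction hw' using Subgroup.closure_induction with
  | mem x hx =>
    intro a
    obtain ⟨r, ⟨e, rfl⟩, hr⟩ := Group.mem_conjugatesOfSet_iff.1 hx
    obtain ⟨u, rfl⟩ := isConj_iff.1 hr
    refine ⟨{(e, a * ρ (L.pr u))}, fun C hC => ?_⟩
    have h1 := hC (e, a * ρ (L.pr u)) (Finset.mem_singleton_self _)
    simp only at h1
    rw [C.mul, C.mul, h1, mul_one, map_mul, mk_rel, mul_one, ← C.mul, mul_inv_cancel, C.one]
  | one => exact fun a => ⟨∅, fun C _ => C.one a⟩
  | mul x y hx hy ihx ihy =>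
    intro a
    obtain ⟨S, hS⟩ := ihx hx a
    obtain ⟨T, hT⟩ := ihy hy (a * ρ (L.pr x))
    refine ⟨S ∪ T, fun C hC => ?_⟩
    rw [C.mul, hS C fun d hd => hC d (Finset.mem_union_left _ hd),
      hT C fun d hd => hC d (Finset.mem_union_right _ hd), one_mul]
  | inv x hx ihx =>
    intro a
    obtain ⟨S, hS⟩ := ihx hx (a * (ρ (L.pr x))⁻¹)
    refine ⟨S, fun C hC => ?_⟩
    rw [C.inv, hS C hC, inv_one]

/-- finitely many elements of a normal subgroup of a free group of finite rank determine whether a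
homomorphism to the integers is trivial on it -/
theorem exists_finset_hom {α : Type} [Finite α] (K : Subgroup (FreeGroup α)) :
    ∃ T : Finset (FreeGroup α), (∀ x ∈ T, x ∈ K) ∧
      ∀ φ : FreeGroup α →* Multiplicative ℤ, (∀ x ∈ T, φ x = 1) → ∀ x ∈ K, φ x = 1 := by
  classical
  have := Fintype.ofFinite α
  -- the exponent vector
  let ab : FreeGroup α →* Multiplicative (α → ℤ) :=
    FreeGroup.lift fun i => Multiplicative.ofAdd (Pi.single i 1)
  let s : Set (α → ℤ) := (fun x => Multiplicative.toAdd (ab x)) '' (K : Set (FreeGroup α))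
  obtain ⟨s', hs', hspan⟩ := (Submodule.fg_span_iff_fg_span_finset_subset (R := ℤ) s).1
    (IsNoetherian.noetherian _)
  choose! g hgK hg using fun (z : α → ℤ) (hz : z ∈ s) => hz
  refine ⟨s'.image g, ?_, ?_⟩
  · intro x hx
    obtain ⟨z, hz, rfl⟩ := Finset.mem_image.1 hx
    exact hgK z (hs' hz)
  · intro φ hφ
    let ψ : (α → ℤ) →ₗ[ℤ] ℤ :=
      ∑ i, (Multiplicative.toAdd (φ (FreeGroup.of i))) • LinearMap.proj i
    have hψ : ∀ x, ψ (Multiplicative.toAdd (ab x)) = Multiplicative.toAdd (φ x) := by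
      intro x
      let ψ' : Multiplicative (α → ℤ) →* Multiplicative ℤ := AddMonoidHom.toMultiplicative ψ.toAddMonoidHom
      have h1 : ψ'.comp ab = φ := by
        ext i
        show ψ (Multiplicative.toAdd (ab (FreeGroup.of i))) = Multiplicative.toAdd (φ (FreeGroup.of i))
        have h2 : ab (FreeGroup.of i) = Multiplicative.ofAdd (Pi.single i 1) :=
          FreeGroup.lift_apply_of
        rw [h2]
        show (∑ j, (Multiplicative.toAdd (φ (FreeGroup.of j))) • LinearMap.proj j :
          (α → ℤ) →ₗ[ℤ] ℤ) (Pi.single i 1) = _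
        rw [LinearMap.sum_apply, Finset.sum_eq_single i]
        · simp
        · intro j _ hj
          simp [hj]
        · intro h; exact absurd (Finset.mem_univ _) h
      exact congrArg Multiplicative.toAdd (DFunLike.congr_fun h1 x)
    have hker : Submodule.span ℤ s ≤ LinearMap.ker ψ := by
      rw [hspan, Submodule.span_le]
      intro z hz
      have h1 := hφ (g z) (Finset.mem_image_of_mem g hz)
      have h2 := hψ (g z)
      have h3 : Multiplicative.toAdd (ab (g z)) = z := hg z (hs' hz)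
      rw [h1, h3] at h2
      exact h2
    intro x hx
    have h1 : ψ (Multiplicative.toAdd (ab x)) = 0 :=
      hker (Submodule.subset_span ⟨x, hx, rfl⟩)
    rw [hψ] at h1
    exact h1

/-- a nontrivial subgroup of a free group has a nontrivial homomorphism to the integers -/
theorem free_li {V : Type} (J : Subgroup (FreeGroup V)) (hJ : J ≠ ⊥) :
    ∃ ψ : J →* Multiplicative ℤ, ∃ x, ψ x ≠ 1 := by
  have : IsFreeGroup J := subgroupIsFreeOfIsFree J
  by_cases hg : Nonempty (IsFreeGroup.Generators J)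
  · obtain ⟨i⟩ := hg
    refine ⟨IsFreeGroup.lift fun _ => Multiplicative.ofAdd (1 : ℤ), IsFreeGroup.of i, ?_⟩
    rw [IsFreeGroup.lift_of]
    intro h
    have h2 : (1 : ℤ) = 0 := h
    exact one_ne_zero h2
  · exfalso
    apply hJ
    rw [Subgroup.eq_bot_iff_forall]
    intro x hx
    have h1 : (MonoidHom.id J) = 1 := by
      apply IsFreeGroup.ext_hom
      intro a
      exact absurd ⟨a⟩ hg
    have h2 := DFunLike.congr_fun h1 ⟨x, hx⟩
    exact congrArg Subtype.val h2

theorem ker_li (L : LOG V E) (ρ : L.G →* A) (hfree : L.FreeSidesA ρ) (H : Subgroup L.G)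
    (hH : H.FG) (hk : H ≤ ρ.ker) (hne : H ≠ ⊥) :
    ∃ ψ : H →* Multiplicative ℤ, ∃ x, ψ x ≠ 1 := by
  classical
  by_contra hcon
  push Not at hcon
  have : Group.FG H := (Group.fg_iff_subgroup_fg H).2 hH
  obtain ⟨α, hα, P, hP⟩ := Group.fg_iff_exists_freeGroup_hom_surjective_finite.1 this
  -- lift to the free group
  have hsurj : Function.Surjective L.pr := PresentedGroup.mk_surjective _
  choose lft hlft using hsurj
  let Q : FreeGroup α →* FreeGroup V := FreeGroup.lift fun i => lft (P (FreeGroup.of i))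
  have hQ : ∀ x, L.pr (Q x) = P x := by
    intro x
    have h : L.pr.comp Q = H.subtype.comp P := by
      ext i
      show L.pr (Q (FreeGroup.of i)) = P (FreeGroup.of i)
      have h2 : Q (FreeGroup.of i) = lft (P (FreeGroup.of i)) := FreeGroup.lift_apply_of
      rw [h2, hlft]
    exact DFunLike.congr_fun h x
  obtain ⟨T, hTK, hT⟩ := exists_finset_hom P.ker
  have hcells : ∀ x ∈ T, ∃ S : Finset (E × A), ∀ C : L.Coc ρ,
      (∀ d ∈ S, C.c d.2 (L.rel d.1) = 1) → C.c 1 (Q x) = 1 := by
    intro x hx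
    refine exists_cells L ρ (Q x) ?_ 1
    have h1 : L.pr (Q x) = 1 := by
      rw [hQ, (MonoidHom.mem_ker).1 (hTK x hx)]
      rfl
    exact (PresentedGroup.mk_eq_one_iff).1 h1
  choose! S hS using hcells
  obtain ⟨C, hC⟩ := exists_coc L ρ hfree _ (T.biUnion S) rfl
  have hρQ : ∀ x, ρ (L.pr (Q x)) = 1 := by
    intro x
    rw [hQ]
    exact MonoidHom.mem_ker.1 (hk (P x).2)
  let Θ : FreeGroup α →* FreeGroup V :=
    MonoidHom.mk' (fun x => C.c 1 (Q x)) (by
      intro x y
      show C.c 1 (Q (x * y)) = C.c 1 (Q x) * C.c 1 (Q y)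
      rw [map_mul, C.mul, hρQ, mul_one])
  have hΘT : ∀ x ∈ T, Θ x = 1 := by
    intro x hx
    exact hS x hx C fun d hd => hC d (Finset.mem_biUnion.2 ⟨x, hx, hd⟩)
  have hJ : Θ.range = ⊥ := by
    by_contra hJ
    obtain ⟨ψ, ⟨_, y, rfl⟩, hy⟩ := free_li Θ.range hJ
    apply hy
    let φ : FreeGroup α →* Multiplicative ℤ := ψ.comp Θ.rangeRestrict
    have hφ : ∀ x ∈ P.ker, φ x = 1 := by
      apply hT φ
      intro x hx
      show ψ (Θ.rangeRestrict x) = 1
      have h1 : Θ.rangeRestrict x = 1 := Subtype.ext (hΘT x hx)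
      rw [h1, map_one]
    let f : H →* Multiplicative ℤ :=
      P.liftOfRightInverse (Function.surjInv hP) (Function.rightInverse_surjInv hP)
        ⟨φ, fun x hx => MonoidHom.mem_ker.2 (hφ x hx)⟩
    have hf : ∀ x, f (P x) = φ x := fun x =>
      P.liftOfRightInverse_comp_apply (Function.surjInv hP) (Function.rightInverse_surjInv hP) _ x
    have h2 := hcon f (P y)
    rw [hf] at h2
    exact h2
  apply hne
  rw [Subgroup.eq_bot_iff_forall]
  intro h hh
  obtain ⟨x, hx⟩ := hP ⟨h, hh⟩
  have h1 : Θ x = 1 := by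
    have h2 : Θ x ∈ Θ.range := ⟨x, rfl⟩
    rw [hJ] at h2
    exact Subgroup.mem_bot.1 h2
  have h3 : L.pr (Q x) = 1 := by
    rw [← C.pr_c 1 (Q x)]
    have h4 : C.c 1 (Q x) = 1 := h1
    rw [h4, map_one]
  rw [hQ, hx] at h3
  exact h3

end Pool.Agent.TH625.LOG
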