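import Pool.Agent.TH625.LOG.Ker

/-!
# Local indicability
-/

set_option autoImplicit false

namespace Pool.Agent.TH625.LOG

/-- A group is locally indicable if every nontrivial finitely generated subgroup has a surjective
homomorphism to the integers. -/
def LocInd (G : Type) [Group G] : Prop :=
  ∀ H : Subgroup G, H.FG → H ≠ ⊥ → ∃ ψ : H →* Multiplicative ℤ, Function.Surjective ψ

theorem surj_of_ne {H : Type} [Group H] (ψ : H →* Multiplicative ℤ) (h : ∃ x, ψ x ≠ 1) :
    ∃ ψ' : H →* Multiplicative ℤ, Function.Surjective ψ' := by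
  classical
  let v : H → ℤ := fun x => Multiplicative.toAdd (ψ x)
  have vmul : ∀ x y, v (x * y) = v x + v y := fun x y => by
    show Multiplicative.toAdd (ψ (x * y)) = _
    rw [map_mul]; rfl
  have vzpow : ∀ (x : H) (n : ℤ), v (x ^ n) = n * v x := fun x n => by
    show Multiplicative.toAdd (ψ (x ^ n)) = _
    rw [map_zpow, toAdd_zpow, smul_eq_mul]
  have hex : ∃ n : ℕ, 0 < n ∧ ∃ x, v x = n := by
    obtain ⟨x, hx⟩ := h
    have hx' : v x ≠ 0 := fun h0 => hx h0
    refine ⟨(v x).natAbs, Int.natAbs_pos.2 hx', ?_⟩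
    rcases le_total 0 (v x) with h1 | h1
    · exact ⟨x, (Int.natAbs_of_nonneg h1).symm⟩
    · refine ⟨x ^ (-1 : ℤ), ?_⟩
      rw [vzpow, Int.ofNat_natAbs_of_nonpos h1]
      ring
  obtain ⟨hpos, x₀, hx₀⟩ := Nat.find_spec hex
  set m := Nat.find hex with hm
  have hdvd : ∀ x, (m : ℤ) ∣ v x := by
    intro x
    by_contra hnd
    have h1 : v (x * x₀ ^ (-(v x / m))) = v x % m := by
      rw [vmul, vzpow, hx₀]
      have := Int.emod_add_mul_ediv (v x) m
      linarith
    have h2 : 0 ≤ v x % m := Int.emod_nonneg _ (by exact_mod_cast hpos.ne')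
    have h3 : v x % m < m := Int.emod_lt_of_pos _ (by exact_mod_cast hpos)
    have h4 : v x % m ≠ 0 := fun h => hnd (Int.dvd_of_emod_eq_zero h)
    have h5 : (v x % m).toNat < m := by
      rw [← Int.ofNat_lt, Int.toNat_of_nonneg h2]; exact h3
    refine Nat.find_min hex h5 ⟨?_, x * x₀ ^ (-(v x / m)), ?_⟩
    · have : 0 < v x % m := lt_of_le_of_ne h2 h4.symm
      omega
    · rw [h1, Int.toNat_of_nonneg h2]
  refine ⟨MonoidHom.mk' (fun x => Multiplicative.ofAdd (v x / m)) ?_, ?_⟩
  · intro x y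
    rw [vmul, Int.add_ediv_of_dvd_left (hdvd x)]
    rfl
  · intro z
    refine ⟨x₀ ^ (Multiplicative.toAdd z), ?_⟩
    show Multiplicative.ofAdd (v (x₀ ^ (Multiplicative.toAdd z)) / m) = z
    rw [vzpow, hx₀, Int.mul_ediv_cancel _ (by exact_mod_cast hpos.ne')]
    rfl

/-- finitely generated groups with a nontrivial homomorphism to the reals -/
theorem real_to_int {H : Type} [Group H] [Group.FG H] (τ : H →* Multiplicative ℝ) (x : H)
    (hx : τ x ≠ 1) : ∃ ψ : H →* Multiplicative ℤ, ∃ y, ψ y ≠ 1 := by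
  classical
  obtain ⟨S, hS⟩ := (inferInstance : Group.FG H).out
  let v : H → ℝ := fun y => Multiplicative.toAdd (τ y)
  have vmul : ∀ y z, v (y * z) = v y + v z := fun y z => by
    show Multiplicative.toAdd (τ (y * z)) = _
    rw [map_mul]; rfl
  have vone : v 1 = 0 := by
    show Multiplicative.toAdd (τ 1) = 0
    rw [map_one]; rfl
  have vinv : ∀ y, v y⁻¹ = - v y := fun y => by
    show Multiplicative.toAdd (τ y⁻¹) = _
    rw [map_inv]; rfl
  let M : Submodule ℤ ℝ := Submodule.span ℤ (v '' (S : Set H))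
  have hM : ∀ y, v y ∈ M := by
    intro y
    have hy : y ∈ Subgroup.closure (S : Set H) := by rw [hS]; trivial
    induction hy using Subgroup.closure_induction with
    | mem z hz => exact Submodule.subset_span ⟨z, hz, rfl⟩
    | one => rw [vone]; exact M.zero_mem
    | mul y z _ _ h1 h2 => rw [vmul]; exact M.add_mem h1 h2
    | inv y _ h1 => rw [vinv]; exact M.neg_mem h1
  have hfg : M.FG := Submodule.fg_span (S.finite_toSet.image v)
  have : Module.Finite ℤ M := Module.Finite.iff_fg.2 hfg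
  have : Module.Free ℤ M := inferInstance
  let b := Module.Free.chooseBasis ℤ M
  have hne : (⟨v x, hM x⟩ : M) ≠ 0 := by
    intro h
    have h2 : v x = 0 := congrArg Subtype.val h
    exact hx h2
  have : ∃ i, b.repr ⟨v x, hM x⟩ i ≠ 0 := by
    by_contra hcon
    push Not at hcon
    apply hne
    apply b.repr.injective
    ext i
    rw [hcon i, map_zero]; rfl
  obtain ⟨i, hi⟩ := this
  refine ⟨MonoidHom.mk' (fun y => Multiplicative.ofAdd (b.repr ⟨v y, hM y⟩ i)) ?_, x, ?_⟩
  · intro y z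
    have h1 : (⟨v (y * z), hM (y * z)⟩ : M) = ⟨v y, hM y⟩ + ⟨v z, hM z⟩ := Subtype.ext (vmul y z)
    show Multiplicative.ofAdd (b.repr ⟨v (y * z), hM (y * z)⟩ i) = _
    rw [h1, map_add]; rfl
  · intro h
    exact hi h

/-- the passage to an image -/
theorem LocInd.of_hom {G A : Type} [Group G] [Group A] (hA : LocInd A) {H : Subgroup G}
    (hH : H.FG) (f : G →* A) (hf : ¬ H ≤ f.ker) :
    ∃ ψ : H →* Multiplicative ℤ, Function.Surjective ψ := by
  have h1 : (f.comp H.subtype).range.FG := by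
    have : Group.FG H := (Group.fg_iff_subgroup_fg H).2 hH
    exact (Group.fg_iff_subgroup_fg _).1
      (Group.fg_of_surjective (f.comp H.subtype).rangeRestrict_surjective)
  have h2 : (f.comp H.subtype).range ≠ ⊥ := by
    intro h0
    apply hf
    intro x hx
    have : f x ∈ (f.comp H.subtype).range := ⟨⟨x, hx⟩, rfl⟩
    rw [h0] at this
    exact MonoidHom.mem_ker.2 (Subgroup.mem_bot.1 this)
  obtain ⟨φ, hφ⟩ := hA _ h1 h2
  exact ⟨φ.comp (f.comp H.subtype).rangeRestrict, hφ.comp
    (f.comp H.subtype).rangeRestrict_surjective⟩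

/-- extensions -/
theorem LocInd.ext {G A : Type} [Group G] [Group A] (hA : LocInd A) (f : G →* A)
    (hk : ∀ H : Subgroup G, H.FG → H ≠ ⊥ → H ≤ f.ker →
      ∃ ψ : H →* Multiplicative ℤ, ∃ x, ψ x ≠ 1) : LocInd G := by
  intro H hH hne
  by_cases h : H ≤ f.ker
  · obtain ⟨ψ, hψ⟩ := hk H hH hne h
    exact surj_of_ne ψ hψ
  · exact hA.of_hom hH f h

theorem locInd_real : LocInd (Multiplicative ℝ) := by
  intro H hH hne
  have : Group.FG H := (Group.fg_iff_subgroup_fg H).2 hH
  have h1 : ∃ x ∈ H, x ≠ 1 := by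
    by_contra hcon
    push Not at hcon
    exact hne ((Subgroup.eq_bot_iff_forall H).2 hcon)
  obtain ⟨x, hx, hx1⟩ := h1
  obtain ⟨ψ, hψ⟩ := real_to_int H.subtype ⟨x, hx⟩ hx1
  exact surj_of_ne ψ hψ

end Pool.Agent.TH625.LOG
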