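import Pool.Agent.TH625.LOG.Uni

/-!
# Labelled oriented trees whose graph `I` has one tree component and layered unicyclic components
-/

set_option autoImplicit false

namespace Pool.Agent.TH625.LOG

variable {V E : Type}

theorem lay_core [Fintype V] [Fintype E] (L : LOG V E)
    (hcard : Fintype.card V = Fintype.card E + 1) (k : ℕ) (lev : V → ℕ) (σ : ℕ → E) (r : ℕ → V)
    (W : Set V) (hk : ∀ v, lev v ≤ k) (hlev : ∀ e, lev (L.lab e) = lev (L.ini e))
    (hdec : ∀ e, lev (L.ini e) ≤ lev (L.ter e) + 1)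
    (hr : ∀ a, a ≤ k → lev (r a) = a)
    (hσ : ∀ a, a < k → lev (L.ini (σ a)) = a + 1 ∧ L.ter (σ a) = r a)
    (p : V → E) (q : V → V) (d : V → ℕ)
    (hp : ∀ v, v ≠ r (lev v) →
      (¬ ∃ a, a < k ∧ p v = σ a) ∧ L.Joins (p v) v (q v) ∧ d (q v) < d v ∧ (v ∈ W → q v ∈ W))
    (hW1 : ∀ a, a < k → L.ini (σ a) ∈ W ∧ L.lab (σ a) ∈ W)
    (hW2 : ∀ e, L.ini e ∈ W → L.lab e ∈ W → lev (L.ini e) = lev (L.ter e) + 1 → L.ter e ∈ W)
    (s : V → ℤ → ℝ) (hs : L.AlexCocycle (-1) 1 s)
    (hgap : ∀ e a, a < k → e ≠ σ a → L.ini e ∈ W → L.lab e ∈ W → lev (L.ini e) = a + 1 →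
      lev (L.ter e) = a → s (L.lab e) (-(a : ℤ)) < s (L.lab (σ a)) (-(a : ℤ))) :
    L.MetabelianTest := by
  classical
  let Sp : E → Prop := fun e => ∃ a, a < k ∧ e = σ a
  have hSpl : ∀ e a, a < k → e = σ a → lev (L.ini e) = a + 1 := fun e a ha h => by
    rw [h]; exact (hσ a ha).1
  -- the parent edges give a bijection
  let X := {v : V // v ≠ r (lev v)}
  let Y := {e : E // ¬ Sp e}
  let P : X → Y := fun v => ⟨p v.1, (hp v.1 v.2).1⟩
  have hPinj : Function.Injective P := by
    rintro ⟨v, hv⟩ ⟨v', hv'⟩ h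
    have h0 : p v = p v' := congrArg Subtype.val h
    obtain ⟨-, hj, hd, -⟩ := hp v hv
    obtain ⟨-, hj', hd', -⟩ := hp v' hv'
    apply Subtype.ext
    show v = v'
    rw [← h0] at hj'
    rcases hj with ⟨a1, a2⟩ | ⟨a1, a2⟩ <;> rcases hj' with ⟨b1, b2⟩ | ⟨b1, b2⟩
    · exact a1.symm.trans b1
    · exfalso
      have e1 : v' = q v := b1.symm.trans a2
      have e2 : v = q v' := a1.symm.trans b2
      rw [← e1] at hd; rw [← e2] at hd'; omega
    · exfalso
      have e1 : v' = q v := b1.symm.trans a2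
      have e2 : v = q v' := a1.symm.trans b2
      rw [← e1] at hd; rw [← e2] at hd'; omega
    · exact a1.symm.trans b1
  have hcX : Fintype.card X = Fintype.card V - (k + 1) := by
    rw [Fintype.card_of_subtype (((Finset.range (k + 1)).image r)ᶜ) (by
      intro v
      simp only [Finset.mem_compl, Finset.mem_image, Finset.mem_range, not_exists, not_and]
      constructor
      · intro h h1
        exact h (lev v) (Nat.lt_succ_of_le (hk v)) h1.symm
      · intro h a ha h1
        apply h
        rw [← h1, hr a (Nat.lt_succ_iff.1 ha)]),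
      Finset.card_compl, Finset.card_image_of_injOn, Finset.card_range]
    intro a ha b hb hab
    have ha' : a ≤ k := Nat.lt_succ_iff.1 (Finset.mem_range.1 ha)
    have hb' : b ≤ k := Nat.lt_succ_iff.1 (Finset.mem_range.1 hb)
    have h1 : lev (r a) = lev (r b) := congrArg lev hab
    rw [hr a ha', hr b hb'] at h1
    exact h1
  have hcY : Fintype.card Y = Fintype.card E - k := by
    rw [Fintype.card_of_subtype (((Finset.range k).image σ)ᶜ) (by
      intro e
      simp only [Finset.mem_compl, Finset.mem_image, Finset.mem_range, Sp]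
      constructor
      · rintro h ⟨a, ha, h1⟩
        exact h ⟨a, ha, h1.symm⟩
      · rintro h ⟨a, ha, h1⟩
        exact h ⟨a, ha, h1.symm⟩),
      Finset.card_compl, Finset.card_image_of_injOn, Finset.card_range]
    intro a ha b hb hab
    have h1 := (hσ a (Finset.mem_range.1 ha)).1
    have h2 := (hσ b (Finset.mem_range.1 hb)).1
    have h3 : lev (L.ini (σ a)) = lev (L.ini (σ b)) := congrArg (fun e => lev (L.ini e)) hab
    omega
  have hPsurj : Function.Surjective P :=
    ((Fintype.bijective_iff_injective_and_card P).2 ⟨hPinj, by rw [hcX, hcY]; omega⟩).2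
  -- the children
  have hch : ∀ e : E, ∃ v : V, ¬ Sp e → v ≠ r (lev v) ∧ p v = e := by
    intro e
    by_cases he : Sp e
    · exact ⟨L.ini e, fun h => absurd he h⟩
    · obtain ⟨⟨v, h1⟩, hv⟩ := hPsurj ⟨e, he⟩
      exact ⟨v, fun _ => ⟨h1, congrArg Subtype.val hv⟩⟩
  choose ch hch using hch
  have chj : ∀ e, ¬ Sp e → L.Joins e (ch e) (q (ch e)) := fun e he => by
    obtain ⟨h1, h3⟩ := hch e he
    have h4 := (hp _ h1).2.1
    rw [h3] at h4
    exact h4
  have chd : ∀ e, ¬ Sp e → d (q (ch e)) < d (ch e) := fun e he =>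
    (hp _ (hch e he).1).2.2.1
  have chW : ∀ e, ¬ Sp e → ch e ∈ W → q (ch e) ∈ W := fun e he =>
    (hp _ (hch e he).1).2.2.2
  have chinj : ∀ e f, ¬ Sp e → ¬ Sp f → ch e = ch f → e = f := fun e f he hf h => by
    rw [← (hch e he).2, ← (hch f hf).2, h]
  -- the ends of an edge
  have ends : ∀ e, ¬ Sp e → ∀ v, (L.ini e = v ∨ L.lab e = v) → v = ch e ∨ v = q (ch e) := by
    intro e he v hv
    rcases chj e he with ⟨h1, h2⟩ | ⟨h1, h2⟩ <;> rcases hv with h | h
    · exact Or.inl (h.symm.trans h1)
    · exact Or.inr (h.symm.trans h2)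
    · exact Or.inr (h.symm.trans h2)
    · exact Or.inl (h.symm.trans h1)
  have cmp : ∀ e f, ¬ Sp e → ¬ Sp f → f ≠ e → (L.ini f = ch e ∨ L.lab f = ch e) →
      q (ch f) = ch e := by
    intro e f he hf hne h
    rcases ends f hf (ch e) h with h1 | h1
    · exact absurd (chinj f e hf he h1.symm) hne
    · exact h1.symm
  have chL : ∀ e, ¬ Sp e → lev (ch e) = lev (L.ini e) := by
    intro e he
    rcases chj e he with ⟨h1, h2⟩ | ⟨h1, h2⟩
    · rw [h1]
    · rw [← h1]; exact hlev e
  -- constants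
  obtain ⟨N, hN⟩ : ∃ N : ℕ, ∀ v, d v < N := ⟨(∑ v, d v) + 1, fun v =>
    Nat.lt_succ_of_le (Finset.single_le_sum (fun _ _ => Nat.zero_le _) (Finset.mem_univ v))⟩
  have hN' : ∀ v, (d v : ℝ) < N := fun v => by exact_mod_cast hN v
  have hN0 : (0 : ℝ) ≤ N := Nat.cast_nonneg _
  have hd0 : ∀ v, (0 : ℝ) ≤ d v := fun v => Nat.cast_nonneg _
  let g : E → ℝ := fun e =>
    s (L.lab (σ (lev (L.ter e)))) (-(lev (L.ter e) : ℤ)) - s (L.lab e) (-(lev (L.ter e) : ℤ))
  obtain ⟨R, hR0, hR⟩ : ∃ R : ℝ, 0 < R ∧ ∀ e, 0 < g e → 2 * N + 2 ≤ R * g e := by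
    refine ⟨(∑ e, if 0 < g e then (2 * N + 2) / g e else 0) + 1, ?_, ?_⟩
    · have : 0 ≤ ∑ e, if 0 < g e then (2 * (N : ℝ) + 2) / g e else 0 :=
        Finset.sum_nonneg fun e _ => by split_ifs with h <;> positivity
      linarith
    · intro e he
      have h1 : (2 * (N : ℝ) + 2) / g e ≤ ∑ e, if 0 < g e then (2 * (N : ℝ) + 2) / g e else 0 := by
        have h2 := Finset.single_le_sum (s := Finset.univ)
          (f := fun e => if 0 < g e then (2 * (N : ℝ) + 2) / g e else 0)
          (fun e _ => by split_ifs with h <;> positivity) (Finset.mem_univ e)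
        rw [if_pos he] at h2
        exact h2
      have h2 : 2 * (N : ℝ) + 2 = (2 * (N : ℝ) + 2) / g e * g e := by field_simp
      calc 2 * (N : ℝ) + 2 = (2 * (N : ℝ) + 2) / g e * g e := h2
        _ ≤ _ := by
          apply mul_le_mul_of_nonneg_right _ he.le
          linarith
  obtain ⟨H, hH0, hH⟩ : ∃ H : ℝ, 0 ≤ H ∧ ∀ e, 2 * N + 2 - R * g e ≤ H := by
    refine ⟨(∑ e, |2 * N + 2 - R * g e|), ?_, ?_⟩
    · exact Finset.sum_nonneg fun e _ => abs_nonneg _
    · intro e
      have h2 := Finset.single_le_sum (s := Finset.univ)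
          (f := fun e => |2 * (N : ℝ) + 2 - R * g e|)
          (fun e _ => abs_nonneg _) (Finset.mem_univ e)
      have h3 := le_abs_self (2 * (N : ℝ) + 2 - R * g e)
      linarith
  let K : ℕ → ℝ := fun n => Nat.rec 0
    (fun a c => c - N + R * s (L.lab (σ a)) (-(a : ℤ)) - 1) n
  have hK : ∀ a, K (a + 1) = K a - N + R * s (L.lab (σ a)) (-(a : ℤ)) - 1 := fun a => rfl
  let y : E → ℝ := fun e => if Sp e then K (lev (L.ini e)) + N else
    if ch e ∈ W then K (lev (L.ini e)) + d (ch e) else
      K (lev (L.ini e)) + H * (lev (L.ini e) + 1) + d (ch e)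
  let m : E → ℤ := fun e => -(lev (L.ini e) : ℤ)
  let s' : V → ℤ → ℝ := fun v l => R * s v l
  let cor : E → Fin 4 := fun e => if Sp e then 3 else if L.ini e = ch e then 0 else 2
  have yS : ∀ e, Sp e → y e = K (lev (L.ini e)) + N := fun e h => if_pos h
  have yW : ∀ e, ¬ Sp e → ch e ∈ W → y e = K (lev (L.ini e)) + d (ch e) := fun e h1 h2 => by
    show (if Sp e then K (lev (L.ini e)) + (N : ℝ) else _) = _
    rw [if_neg h1, if_pos h2]
  have yH : ∀ e, ¬ Sp e → ch e ∉ W →
      y e = K (lev (L.ini e)) + H * (lev (L.ini e) + 1) + d (ch e) := fun e h1 h2 => by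
    show (if Sp e then K (lev (L.ini e)) + (N : ℝ) else _) = _
    rw [if_neg h1, if_neg h2]
  have hHn : ∀ n : ℕ, 0 ≤ H * ((n : ℝ) + 1) := fun n => by positivity
  have ylow : ∀ e, K (lev (L.ini e)) ≤ y e := by
    intro e
    by_cases h1 : Sp e
    · rw [yS e h1]; linarith
    · by_cases h2 : ch e ∈ W
      · rw [yW e h1 h2]; linarith [hd0 (ch e)]
      · rw [yH e h1 h2]; linarith [hd0 (ch e), hHn (lev (L.ini e))]
  have yupp : ∀ e, ¬ Sp e → y e ≤ K (lev (L.ini e)) + H * (lev (L.ini e) + 1) + d (ch e) := by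
    intro e h1
    by_cases h2 : ch e ∈ W
    · rw [yW e h1 h2]; linarith [hHn (lev (L.ini e))]
    · rw [yH e h1 h2]
  -- the crossing inequality
  have hX : ∀ e, ¬ Sp e → ∀ a, lev (L.ini e) = a + 1 → lev (L.ter e) = a →
      (ch e ∈ W → L.ter e ∈ W) ∧
      (∀ v, K a + d v < y e - R * s (L.lab e) (-(a : ℤ))) ∧
      (ch e ∉ W → ∀ v, K a + H * (a + 1) + d v < y e - R * s (L.lab e) (-(a : ℤ))) := by
    intro e he a h1 h2
    have hak : a < k := by
      have := hk (L.ini e)
      omega
    have hge : g e = s (L.lab (σ a)) (-(a : ℤ)) - s (L.lab e) (-(a : ℤ)) := by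
      show s (L.lab (σ (lev (L.ter e)))) (-(lev (L.ter e) : ℤ)) -
        s (L.lab e) (-(lev (L.ter e) : ℤ)) = _
      rw [h2]
    have hRg : R * g e = R * s (L.lab (σ a)) (-(a : ℤ)) - R * s (L.lab e) (-(a : ℤ)) := by
      rw [hge]; ring
    have hne : e ≠ σ a := fun h => he ⟨a, hak, h⟩
    have hc := hd0 (ch e)
    by_cases hw : ch e ∈ W
    · have hq := chW e he hw
      have hiw : L.ini e ∈ W ∧ L.lab e ∈ W := by
        rcases chj e he with ⟨a, b⟩ | ⟨a, b⟩
        · rw [a, b]; exact ⟨hw, hq⟩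
        · rw [a, b]; exact ⟨hq, hw⟩
      have h4 := hR e (by rw [hge]; exact sub_pos.2 (hgap e a hak hne hiw.1 hiw.2 h1 h2))
      refine ⟨fun _ => hW2 e hiw.1 hiw.2 (by rw [h1, h2]), fun v => ?_, fun h => absurd hw h⟩
      rw [yW e he hw, h1, hK]
      have h3 := hN' v
      linarith
    · have h4 := hH e
      have key : ∀ v, K a + H * (a + 1) + d v < y e - R * s (L.lab e) (-(a : ℤ)) := by
        intro v
        rw [yH e he hw, h1, hK]
        have h3 := hN' v
        push_cast
        have h5 : H * ((a : ℝ) + 1 + 1) = H * ((a : ℝ) + 1) + H := by ring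
        rw [h5]
        linarith
      refine ⟨fun h => absurd h hw, fun v => ?_, fun _ => key⟩
      have := key v
      linarith [hHn a]
  refine ⟨-1, 1, s', m, y, cor, one_pos, ?_, ?_⟩
  · intro e l
    have h := hs e l
    show 1 * (R * s (L.lab e) l) + R * s (L.ini e) (l + -1) =
      1 * (R * s (L.ter e) l) + R * s (L.lab e) (l + -1)
    linear_combination R * h
  have c0 : ∀ e, L.corner (-1) 1 s' m y e 0 = toLex (m e, y e) := fun e => rfl
  have c2 : ∀ e, L.corner (-1) 1 s' m y e 2 = toLex (m e, y e) := fun e => rfl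
  have c1 : ∀ e, L.corner (-1) 1 s' m y e 1 =
      toLex (m e + 1, y e - R * s (L.ini e) (m e + 1)) := fun e => by
    show toLex (m e - -1, (y e - s' (L.ini e) (m e - -1)) / 1) = _
    rw [sub_neg_eq_add, div_one]
  have c3 : ∀ e, L.corner (-1) 1 s' m y e 3 =
      toLex (m e + 1, y e - R * s (L.lab e) (m e + 1)) := fun e => by
    show toLex (m e - -1, (y e - s' (L.lab e) (m e - -1)) / 1) = _
    rw [sub_neg_eq_add, div_one]
  have mdef : ∀ e, m e = -(lev (L.ini e) : ℤ) := fun e => rfl
  intro e e' k' hsv hne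
  by_cases he : Sp e
  · -- a special edge selects its terminal vertex
    obtain ⟨a, hak, hea⟩ := id he
    have hcor : cor e = 3 := if_pos he
    rw [hcor] at hsv hne ⊢
    have hla : lev (L.ini e) = a + 1 := hSpl e a hak hea
    have hte : L.ter e = r a := by rw [hea]; exact (hσ a hak).2
    have hma : m e + 1 = -(a : ℤ) := by rw [mdef, hla]; push_cast; ring
    have hval : y e - R * s (L.lab e) (-(a : ℤ)) = K a - 1 := by
      rw [yS e he, hla, hK, hea]; ring
    rw [c3, hma, hval]
    have hsv3 : L.sv e 3 = r a := hte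
    rw [hsv3] at hsv
    have hla' : lev (r a) = a := hr a hak.le
    fin_cases k'
    · have h1 : L.ini e' = r a := hsv
      show _ < L.corner (-1) 1 s' m y e' 0
      have h2 : lev (L.ini e') = a := by rw [h1, hla']
      rw [c0, mdef, h2]
      refine lex_lt rfl ?_
      have := ylow e'
      rw [h2] at this
      linarith
    · have h1 : L.lab e' = r a := hsv
      have h2 : lev (L.ini e') = a := by rw [← hlev, h1, hla']
      show _ < L.corner (-1) 1 s' m y e' 1
      rw [c1, mdef, h2]
      exact lex_lt' (by omega)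
    · have h1 : L.lab e' = r a := hsv
      have h2 : lev (L.ini e') = a := by rw [← hlev, h1, hla']
      show _ < L.corner (-1) 1 s' m y e' 2
      rw [c2, mdef, h2]
      refine lex_lt rfl ?_
      have := ylow e'
      rw [h2] at this
      linarith
    · have h1 : L.ter e' = r a := hsv
      have h3 : e' ≠ e := by
        rcases hne with h | h
        · exact h
        · exact absurd rfl h
      have h4 : lev (L.ter e') = a := by rw [h1, hla']
      have h5 := hdec e'
      rw [h4] at h5
      show _ < L.corner (-1) 1 s' m y e' 3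
      rw [c3]
      rcases Nat.lt_or_ge (lev (L.ini e')) (a + 1) with h6 | h6
      · apply lex_lt'
        rw [mdef]
        omega
      · have h7 : lev (L.ini e') = a + 1 := le_antisymm h5 h6
        have h8 : ¬ Sp e' := by
          rintro ⟨b, hb, hb'⟩
          have := hSpl e' b hb hb'
          have hab : b = a := by omega
          exact h3 (by rw [hb', hab, ← hea])
        have h9 := (hX e' h8 a h7 h4).2.1 (r a)
        have h10 : m e' + 1 = -(a : ℤ) := by rw [mdef, h7]; push_cast; ring
        rw [h10]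
        refine lex_lt rfl ?_
        linarith [hd0 (r a)]
  · -- the other edges select their children
    have hk' : (cor e = 0 ∧ L.ini e = ch e) ∨ (cor e = 2 ∧ L.ini e ≠ ch e ∧ L.lab e = ch e) := by
      by_cases h : L.ini e = ch e
      · left
        refine ⟨?_, h⟩
        show (if Sp e then (3 : Fin 4) else if L.ini e = ch e then 0 else 2) = 0
        rw [if_neg he, if_pos h]
      · right
        refine ⟨?_, h, ?_⟩
        · show (if Sp e then (3 : Fin 4) else if L.ini e = ch e then 0 else 2) = 2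
          rw [if_neg he, if_neg h]
        · rcases chj e he with h1 | h1
          · exact absurd h1.1 h
          · exact h1.1
    have hval : L.corner (-1) 1 s' m y e (cor e) = toLex (m e, y e) := by
      rcases hk' with h | h
      · rw [h.1, c0]
      · rw [h.1, c2]
    have hsvc : L.sv e (cor e) = ch e := by
      rcases hk' with h | h
      · rw [h.1]; exact h.2
      · rw [h.1]; exact h.2.2
    rw [hsvc] at hsv
    rw [hval]
    have hroot : ch e ≠ r (lev (ch e)) := (hch e he).1
    have hce : lev (ch e) = lev (L.ini e) := chL e he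
    -- comparison with the corners at an initial vertex or at the second label corner
    have key : ∀ e', (L.ini e' = ch e ∨ L.lab e' = ch e) → e' ≠ e →
        m e' = m e ∧ y e < y e' := by
      intro e' hv h3
      have hl : lev (L.ini e') = lev (L.ini e) := by
        rw [← hce]
        rcases hv with h | h
        · rw [h]
        · rw [← hlev, h]
      refine ⟨by rw [mdef, mdef, hl], ?_⟩
      by_cases h4 : Sp e'
      · obtain ⟨b, hb, hb'⟩ := id h4
        have h7 : ch e ∈ W := by
          rcases hv with h | h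
          · rw [← h, hb']; exact (hW1 b hb).1
          · rw [← h, hb']; exact (hW1 b hb).2
        rw [yW e he h7, yS e' h4, hl]
        linarith [hN' (ch e)]
      · have hq := cmp e e' he h4 h3 hv
        have hd := chd e' h4
        rw [hq] at hd
        have hd' : (d (ch e) : ℝ) < d (ch e') := by exact_mod_cast hd
        by_cases h7 : ch e ∈ W
        · rw [yW e he h7]
          by_cases h8 : ch e' ∈ W
          · rw [yW e' h4 h8, hl]; linarith
          · rw [yH e' h4 h8, hl]; linarith [hHn (lev (L.ini e))]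
        · have h8 : ch e' ∉ W := fun h => h7 (hq ▸ chW e' h4 h)
          rw [yH e he h7, yH e' h4 h8, hl]
          linarith
    have hloop : ∀ e', e' = e → L.ini e' = ch e → L.lab e' = ch e → False := by
      intro e' h h1 h2
      subst h
      have hd := chd e' he
      rcases chj e' he with h3 | h3
      · rw [← h3.2, h2] at hd; omega
      · rw [← h3.2, h1] at hd; omega
    fin_cases k'
    · have h1 : L.ini e' = ch e := hsv
      show _ < L.corner (-1) 1 s' m y e' 0
      rw [c0]
      by_cases h3 : e' = e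
      · exfalso
        rcases hk' with h | h
        · rcases hne with h5 | h5
          · exact h5 h3
          · exact h5 h.1.symm
        · exact h.2.1 (by rw [← h1, h3])
      · obtain ⟨h5, h6⟩ := key e' (Or.inl h1) h3
        exact lex_lt h5.symm h6
    · have h1 : L.lab e' = ch e := hsv
      show _ < L.corner (-1) 1 s' m y e' 1
      rw [c1]
      apply lex_lt'
      have h2 : lev (L.ini e') = lev (L.ini e) := by rw [← hlev, h1, hce]
      rw [mdef, mdef, h2]
      omega
    · have h1 : L.lab e' = ch e := hsv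
      show _ < L.corner (-1) 1 s' m y e' 2
      rw [c2]
      by_cases h3 : e' = e
      · exfalso
        rcases hk' with h | h
        · exact hloop e' h3 (by rw [h3]; exact h.2) h1
        · rcases hne with h5 | h5
          · exact h5 h3
          · exact h5 h.1.symm
      · obtain ⟨h5, h6⟩ := key e' (Or.inr h1) h3
        exact lex_lt h5.symm h6
    · have h1 : L.ter e' = ch e := hsv
      show _ < L.corner (-1) 1 s' m y e' 3
      rw [c3]
      have h4 : lev (L.ter e') = lev (L.ini e) := by rw [h1, hce]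
      have h5 := hdec e'
      rw [h4] at h5
      rcases Nat.lt_or_ge (lev (L.ini e')) (lev (L.ini e) + 1) with h6 | h6
      · apply lex_lt'
        rw [mdef, mdef]
        omega
      · have h7 : lev (L.ini e') = lev (L.ini e) + 1 := le_antisymm h5 h6
        have h8 : ¬ Sp e' := by
          rintro ⟨b, hb, hb'⟩
          have h9 : ch e = r b := by rw [← h1, hb']; exact (hσ b hb).2
          apply hroot
          have h10 : lev (ch e) = b := by rw [h9, hr b hb.le]
          rw [h10]
          exact h9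
        obtain ⟨g1, g2, g3⟩ := hX e' h8 _ h7 h4
        have h10 : m e' + 1 = -(lev (L.ini e) : ℤ) := by rw [mdef, h7]; push_cast; ring
        rw [h10]
        refine lex_lt (mdef e) ?_
        by_cases h11 : ch e' ∈ W
        · have h12 : ch e ∈ W := by rw [← h1]; exact g1 h11
          rw [yW e he h12]
          exact g2 (ch e)
        · exact lt_of_le_of_lt (yupp e he) (g3 h11 (ch e))

/-- `a` and `b` are joined by a path of the graph `I` (vertex set `V`, every edge `e` joins its
initial vertex and its label) which avoids the edges in `S` and runs inside `T`. -/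
def LOG.JPath (L : LOG V E) (S : Set E) (T : Set V) (a b : V) : Prop :=
  Relation.ReflTransGen (fun x y => x ∈ T ∧ y ∈ T ∧ ∃ e, e ∉ S ∧ L.Joins e x y) a b

/-- The components of the graph `I` are the sets `C_a = {v | lev v = a}`, `0 ≤ a ≤ k`; the edges in
`C_(a+1)` end in `C_a ∪ C_(a+1) ∪ ...`; the edge `σ a` (`a < k`) in `C_(a+1)` ends in the vertex
`r a` of `C_a`, and without the edges `σ a` all the vertices of `C_a` are still joined to `r a`.
The set `W` of vertices contains both ends (in `I`) of the edges `σ a`, the vertices of `W` of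
level `a` are joined to `r a` inside `W`, and the edges inside `W` of level `a + 1` that end in
`C_a` end in `W` (for instance `W = V`).  The value at `-a` of the real Alexander cocycle `s` is
smaller at the label of `e` than at the label of `σ a` for all the other edges `e` inside `W` of
level `a + 1` that end in `C_a`. -/
def LOG.LayerTest (L : LOG V E) : Prop :=
  ∃ (k : ℕ) (lev : V → ℕ) (σ : ℕ → E) (r : ℕ → V) (W : Set V) (s : V → ℤ → ℝ),
    (∀ v, lev v ≤ k) ∧ (∀ e, lev (L.lab e) = lev (L.ini e)) ∧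
    (∀ e, lev (L.ini e) ≤ lev (L.ter e) + 1) ∧ (∀ a, a ≤ k → lev (r a) = a) ∧
    (∀ a, a < k → lev (L.ini (σ a)) = a + 1 ∧ L.ter (σ a) = r a) ∧
    (∀ v, L.JPath {e | ∃ a, a < k ∧ e = σ a} Set.univ (r (lev v)) v) ∧
    (∀ v ∈ W, L.JPath {e | ∃ a, a < k ∧ e = σ a} W (r (lev v)) v) ∧
    (∀ a, a < k → L.ini (σ a) ∈ W ∧ L.lab (σ a) ∈ W) ∧
    (∀ e, L.ini e ∈ W → L.lab e ∈ W → lev (L.ini e) = lev (L.ter e) + 1 → L.ter e ∈ W) ∧
    L.AlexCocycle (-1) 1 s ∧
    ∀ e a, a < k → e ≠ σ a → L.ini e ∈ W → L.lab e ∈ W → lev (L.ini e) = a + 1 →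
      lev (L.ter e) = a → s (L.lab e) (-(a : ℤ)) < s (L.lab (σ a)) (-(a : ℤ))

theorem metabelian_of_layer [Fintype V] [Fintype E] (L : LOG V E)
    (hcard : Fintype.card V = Fintype.card E + 1) (h : L.LayerTest) : L.MetabelianTest := by
  classical
  obtain ⟨k, lev, σ, r, W, s, hk, hlev, hdec, hr, hσ, h1, h2, hW1, hW2, hs, hgap⟩ := h
  have hroot : ∀ v, r (lev v) ∈ {x : V | x = r (lev x)} := fun v => by
    show r (lev v) = r (lev (r (lev v)))
    rw [hr _ (hk v)]
  obtain ⟨d₁, hd₁⟩ := exists_rank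
    (fun x y => x ∈ W ∧ y ∈ W ∧ ∃ e, e ∉ {e | ∃ a, a < k ∧ e = σ a} ∧ L.Joins e x y)
    {x : V | x = r (lev x)}
  obtain ⟨d₂, hd₂⟩ := exists_rank
    (fun x y => x ∈ Set.univ ∧ y ∈ Set.univ ∧
      ∃ e, e ∉ {e | ∃ a, a < k ∧ e = σ a} ∧ L.Joins e x y)
    {x : V | x = r (lev x)}
  obtain ⟨N, hN⟩ : ∃ N : ℕ, ∀ v, d₁ v < N := ⟨(∑ v, d₁ v) + 1, fun v =>
    Nat.lt_succ_of_le (Finset.single_le_sum (fun _ _ => Nat.zero_le _) (Finset.mem_univ v))⟩
  let d : V → ℕ := fun v => if v ∈ W then d₁ v else N + d₂ v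
  have dW : ∀ v, v ∈ W → d v = d₁ v := fun v hv => if_pos hv
  have dN : ∀ v, v ∉ W → d v = N + d₂ v := fun v hv => if_neg hv
  have hpar : ∀ v, ∃ (e : E) (w : V), v ≠ r (lev v) →
      (¬ ∃ a, a < k ∧ e = σ a) ∧ L.Joins e v w ∧ d w < d v ∧ (v ∈ W → w ∈ W) := by
    intro v
    by_cases hv : v = r (lev v)
    · exact ⟨σ 0, v, fun h => absurd hv h⟩
    by_cases hw : v ∈ W
    · obtain ⟨w, ⟨hwW, -, e, he, hj⟩, hlt⟩ := hd₁ v ⟨_, hroot v, h2 v hw⟩ hv
      exact ⟨e, w, fun _ => ⟨he, hj.symm, by rw [dW w hwW, dW v hw]; exact hlt, fun _ => hwW⟩⟩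
    · obtain ⟨w, ⟨-, -, e, he, hj⟩, hlt⟩ := hd₂ v ⟨_, hroot v, h1 v⟩ hv
      refine ⟨e, w, fun _ => ⟨he, hj.symm, ?_, fun h => absurd h hw⟩⟩
      rw [dN v hw]
      by_cases hwW : w ∈ W
      · rw [dW w hwW]
        have := hN w
        omega
      · rw [dN w hwW]
        omega
  choose p q hpq using hpar
  exact lay_core L hcard k lev σ r W hk hlev hdec hr hσ p q d hpq hW1 hW2 s hs hgap

end Pool.Agent.TH625.LOG
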