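import Pool.Agent.TH625.LOG.Core

/-!
# Labelled oriented trees: one more 2-cell makes the complex contractible
-/

set_option autoImplicit false

namespace Pool.Agent.TH625.LOG

variable {V E : Type}

/-- `x` and `y` are the two ends of an edge -/
def LOG.Adj (L : LOG V E) (x y : V) : Prop :=
  ∃ e, (L.ini e = x ∧ L.ter e = y) ∨ (L.ter e = x ∧ L.ini e = y)

/-- connected -/
def LOG.Conn (L : LOG V E) : Prop := ∀ x y : V, Relation.ReflTransGen L.Adj x y

theorem trivial_group (L : LOG V E) (hL : L.Conn) (v₀ : V) :
    Subsingleton (PresentedGroup (Set.range L.rel ∪ {FreeGroup.of v₀})) := by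
  set R : Set (FreeGroup V) := Set.range L.rel ∪ {FreeGroup.of v₀} with hR
  have h0 : (PresentedGroup.of v₀ : PresentedGroup R) = 1 :=
    PresentedGroup.one_of_mem (rels := R) (Or.inr rfl)
  have hrel : ∀ e, (PresentedGroup.of (L.ini e) : PresentedGroup R) * PresentedGroup.of (L.lab e) =
      PresentedGroup.of (L.lab e) * PresentedGroup.of (L.ter e) := by
    intro e
    have h1 : PresentedGroup.mk R (L.rel e) = 1 :=
      PresentedGroup.one_of_mem (rels := R) (Or.inl ⟨e, rfl⟩)
    unfold LOG.rel at h1
    simp only [map_mul, map_inv] at h1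
    rw [mul_inv_eq_one, mul_inv_eq_iff_eq_mul] at h1
    exact h1
  have hone : ∀ v : V, (PresentedGroup.of v : PresentedGroup R) = 1 := by
    intro v
    induction hL v₀ v with
    | refl => exact h0
    | tail _ hadj ih =>
      obtain ⟨e, ⟨h1, h2⟩ | ⟨h1, h2⟩⟩ := hadj
      · have h3 := hrel e
        rw [h1, h2, ih, one_mul] at h3
        exact (mul_eq_left.1 h3.symm)
      · have h3 := hrel e
        rw [h1, h2, ih, mul_one] at h3
        exact (mul_eq_right.1 h3)
  refine ⟨fun g h => ?_⟩
  have hall : ∀ g : PresentedGroup R, g = 1 := by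
    intro g
    obtain ⟨w, rfl⟩ := PresentedGroup.mk_surjective R g
    have h2 : PresentedGroup.mk R = 1 := by
      ext v
      exact hone v
    rw [h2]; rfl
  rw [hall g, hall h]

variable [DecidableEq V]

/-- The value at the vertex `v` of the boundary of the 2-chain `∑ n_e e + m f` of the complex
`K = L ∪ f`, where `f` is a 2-cell attached along the loop `v₀`. -/
def LOG.bd1 [Fintype E] (L : LOG V E) (v₀ : V) (n : E → ℤ) (m : ℤ) (v : V) : ℤ :=
  ∑ e, n e * ((if L.ini e = v then 1 else 0) - (if L.ter e = v then 1 else 0)) +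
    (if v₀ = v then m else 0)

theorem bd1_inj [Fintype V] [Fintype E] (L : LOG V E) (hL : L.Conn)
    (hcard : Fintype.card V = Fintype.card E + 1) (v₀ : V) (n : E → ℤ) (m : ℤ)
    (h : ∀ v, L.bd1 v₀ n m v = 0) : (∀ e, n e = 0) ∧ m = 0 := by
  classical
  let f : (Option E → ℤ) →ₗ[ℤ] (V → ℤ) :=
    { toFun := fun u v => L.bd1 v₀ (fun e => u (some e)) (u none) v
      map_add' := by
        intro u u'
        funext v
        simp only [LOG.bd1, Pi.add_apply, add_mul, Finset.sum_add_distrib]
        split_ifs <;> ring
      map_smul' := by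
        intro r u
        funext v
        simp only [LOG.bd1, Pi.smul_apply, smul_eq_mul, RingHom.id_apply, mul_add, Finset.mul_sum]
        congr 1
        · exact Finset.sum_congr rfl fun e _ => by ring
        · split_ifs <;> ring }
  have hf : ∀ u v, f u v = L.bd1 v₀ (fun e => u (some e)) (u none) v := fun _ _ => rfl
  have h0 : (Pi.single v₀ (1 : ℤ) : V → ℤ) ∈ LinearMap.range f := by
    refine ⟨Pi.single none 1, ?_⟩
    funext v
    rw [hf]
    have e1 : ∀ e : E, (Pi.single none 1 : Option E → ℤ) (some e) = 0 := fun e => by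
      simp [Pi.single_apply]
    have e2 : (Pi.single none 1 : Option E → ℤ) none = 1 := by simp [Pi.single_apply]
    unfold LOG.bd1
    simp only [e1, e2, zero_mul, Finset.sum_const_zero, zero_add, Pi.single_apply]
    by_cases hv : v = v₀
    · simp [hv]
    · have hv' : ¬ v₀ = v := fun h => hv h.symm
      simp [hv, hv']
  have h1 : ∀ e, (Pi.single (L.ini e) (1 : ℤ) - Pi.single (L.ter e) 1 : V → ℤ) ∈
      LinearMap.range f := by
    intro e
    refine ⟨Pi.single (some e) 1, ?_⟩
    funext v
    rw [hf]
    have e2 : (Pi.single (some e) 1 : Option E → ℤ) none = 0 := by simp [Pi.single_apply]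
    unfold LOG.bd1
    rw [e2, Finset.sum_eq_single e]
    · simp only [Pi.single_apply, Pi.sub_apply, if_true, one_mul, ite_self, add_zero]
      congr 1
      · by_cases ha : L.ini e = v
        · simp [ha]
        · have ha' : ¬ v = L.ini e := fun h => ha h.symm
          simp [ha, ha']
      · by_cases ha : L.ter e = v
        · simp [ha]
        · have ha' : ¬ v = L.ter e := fun h => ha h.symm
          simp [ha, ha']
    · intro e' _ hne
      have e3 : (Pi.single (some e) 1 : Option E → ℤ) (some e') = 0 := by
        simp [Pi.single_apply, hne]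
      show (Pi.single (some e) 1 : Option E → ℤ) (some e') * _ = 0
      rw [e3, zero_mul]
    · intro hn; exact absurd (Finset.mem_univ _) hn
  have h2 : ∀ v, (Pi.single v (1 : ℤ) : V → ℤ) ∈ LinearMap.range f := by
    intro v
    induction hL v₀ v with
    | refl => exact h0
    | tail _ hadj ih =>
      obtain ⟨e, ⟨ha, hb⟩ | ⟨ha, hb⟩⟩ := hadj
      · have h3 := h1 e
        rw [ha, hb] at h3
        have h4 := Submodule.sub_mem _ ih h3
        simpa using h4
      · have h3 := h1 e
        rw [ha, hb] at h3
        have h4 := Submodule.add_mem _ h3 ih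
        simpa using h4
  have hsurj : Function.Surjective f := by
    rw [← LinearMap.range_eq_top, eq_top_iff]
    intro u _
    have h3 : u = ∑ v, u v • (Pi.single v (1 : ℤ) : V → ℤ) := by
      funext x
      rw [Finset.sum_apply]
      simp [Pi.single_apply]
    rw [h3]
    exact Submodule.sum_mem _ fun v _ => Submodule.smul_mem _ _ (h2 v)
  have hc : Fintype.card V = Fintype.card (Option E) := by rw [Fintype.card_option, hcard]
  let σ : V ≃ Option E := Fintype.equivOfCardEq hc
  let g : (V → ℤ) →ₗ[ℤ] (V → ℤ) := f.comp (LinearMap.funLeft ℤ ℤ σ.symm)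
  have hg : Function.Surjective g := by
    intro y
    obtain ⟨u, hu⟩ := hsurj y
    refine ⟨fun v => u (σ v), ?_⟩
    show f (fun o => u (σ (σ.symm o))) = y
    simp only [Equiv.apply_symm_apply]
    exact hu
  have hinj : Function.Injective g := OrzechProperty.injective_of_surjective_endomorphism g hg
  let u : Option E → ℤ := fun o => o.elim m n
  have h5 : g (fun v => u (σ v)) = 0 := by
    show f (fun o => u (σ (σ.symm o))) = 0
    simp only [Equiv.apply_symm_apply]
    funext v
    rw [hf]
    exact h v
  have h6 := hinj (h5.trans (map_zero g).symm)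
  have h7 : ∀ o, u o = 0 := by
    intro o
    have := congrFun h6 (σ.symm o)
    simpa using this
  exact ⟨fun e => h7 (some e), h7 none⟩

end Pool.Agent.TH625.LOG
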