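import Pool.Agent.TH625.LOG.Met
import Pool.Agent.TH625.LOG.Tree

/-!
# Ordered actions: asphericity and local indicability
-/

set_option autoImplicit false

namespace Pool.Agent.TH625.LOG

variable {V E : Type}

/-- The group of `L` acts by `ρ` on the totally ordered set `Ω` by order automorphisms; every edge
`e` has a point `w e` of `Ω` and a side `c e` of its 2-cell such that
`(sg e (c e))⁻¹ (w e) < (sg e' k')⁻¹ (w e')` for all the other sides `k'` of 2-cells `e'` with the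
same generator. -/
def LOG.OrderedTest (L : LOG V E) (Ω : Type) [LinearOrder Ω] (ρ : L.G →* (Ω ≃o Ω)) : Prop :=
  ∃ (w : E → Ω) (c : E → Fin 4), ∀ (e e' : E) (k' : Fin 4), L.sv e' k' = L.sv e (c e) →
    (e' ≠ e ∨ k' ≠ c e) → (ρ (L.sg e (c e)))⁻¹ (w e) < (ρ (L.sg e' k'))⁻¹ (w e')

/-- The explicit test for the metabelian actions on `ℤ ×ₗ ℝ`. -/
def LOG.MetabelianTest (L : LOG V E) : Prop :=
  ∃ (ε : ℤ) (t : ℝ) (s : V → ℤ → ℝ) (m : E → ℤ) (y : E → ℝ) (c : E → Fin 4),
    0 < t ∧ L.AlexCocycle ε t s ∧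
    ∀ (e e' : E) (k' : Fin 4), L.sv e' k' = L.sv e (c e) → (e' ≠ e ∨ k' ≠ c e) →
      L.corner ε t s m y e (c e) < L.corner ε t s m y e' k'

theorem freeSidesA_of_ordered (L : LOG V E) {Ω : Type} [LinearOrder Ω] (ρ : L.G →* (Ω ≃o Ω))
    (h : L.OrderedTest Ω ρ) : L.FreeSidesA ρ := by
  letI : MulAction (Ω ≃o Ω) Ω :=
    { smul := fun g x => g x
      one_smul := fun x => rfl
      mul_smul := fun g h x => rfl }
  obtain ⟨w, c, hlt⟩ := h
  exact free_sideA L ρ (Ω := Ω) (fun g => g.strictMono) w c hlt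

theorem freeSides_of_ordered (L : LOG V E) {Ω : Type} [LinearOrder Ω] (ρ : L.G →* (Ω ≃o Ω))
    (h : L.OrderedTest Ω ρ) : L.FreeSides := by
  letI : MulAction L.G Ω :=
    { smul := fun g x => ρ g x
      one_smul := fun x => by
        show ρ 1 x = x
        rw [map_one]; rfl
      mul_smul := fun g h x => by
        show ρ (g * h) x = ρ g (ρ h x)
        rw [map_mul]; rfl }
  have hsm : ∀ (g : L.G) (x : Ω), g • x = ρ g x := fun _ _ => rfl
  obtain ⟨w, c, hlt⟩ := h
  refine free_side L (Ω := Ω) (fun g => (ρ g).strictMono) ⟨w, c, fun e e' k' h1 h2 => ?_⟩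
  rw [hsm, hsm, map_inv, map_inv]
  exact hlt e e' k' h1 h2

theorem orderedTest_of_metabelian (L : LOG V E) (h : L.MetabelianTest) :
    ∃ ρ : L.G →* ((ℤ ×ₗ ℝ) ≃o (ℤ ×ₗ ℝ)), (∀ g, ρ g ∈ metGroup) ∧
      L.OrderedTest (ℤ ×ₗ ℝ) ρ := by
  obtain ⟨ε, t, s, m, y, c, ht, hs, hlt⟩ := h
  refine ⟨metHom L ε t ht s hs, metHom_mem L ε t ht s hs, fun e => toLex (m e, y e), c, ?_⟩
  intro e e' k' h1 h2
  rw [met_val, met_val]
  exact hlt e e' k' h1 h2

theorem locInd_of_subgroup (L : LOG V E) {A : Type} [Group A] (ρ : L.G →* A)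
    (hfree : L.FreeSidesA ρ) (B : Subgroup A) (hB : LocInd B) (hρ : ∀ g, ρ g ∈ B) :
    LocInd L.G := by
  refine LocInd.ext hB (ρ.codRestrict B hρ) ?_
  intro H hH hne hk
  refine ker_li L ρ hfree H hH ?_ hne
  intro x hx
  have h := hk hx
  rw [MonoidHom.mem_ker] at h ⊢
  exact congrArg Subtype.val h

theorem locInd_of_metabelian (L : LOG V E) (h : L.MetabelianTest) : LocInd L.G := by
  obtain ⟨ρ, h1, h2⟩ := orderedTest_of_metabelian L h
  exact locInd_of_subgroup L ρ (freeSidesA_of_ordered L ρ h2) metGroup locInd_metGroup h1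

/-- The 2-complex `K = L ∪ f`, where the 2-cell `f` is attached along the loop `v₀`, is
contractible: its fundamental group is trivial and its integral boundary operator `C₂ → C₁` is
injective. -/
def LOG.ContractibleWith [Fintype E] [DecidableEq V] (L : LOG V E) (v₀ : V) : Prop :=
  Subsingleton (PresentedGroup (Set.range L.rel ∪ {FreeGroup.of v₀})) ∧
    ∀ (n : E → ℤ) (m : ℤ), (∀ v, L.bd1 v₀ n m v = 0) → (∀ e, n e = 0) ∧ m = 0

theorem contractibleWith [Fintype V] [Fintype E] [DecidableEq V] (L : LOG V E) (hL : L.Conn)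
    (hcard : Fintype.card V = Fintype.card E + 1) (v₀ : V) : L.ContractibleWith v₀ :=
  ⟨trivial_group L hL v₀, fun n m h => bd1_inj L hL hcard v₀ n m h⟩

end Pool.Agent.TH625.LOG
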