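import Pool.Agent.TH625.LOG.LI

/-!
# Metabelian actions of the group of a labelled oriented graph on `ℤ ×ₗ ℝ`
-/

set_option autoImplicit false

namespace Pool.Agent.TH625.LOG

variable {V E : Type}

/-- The map `(l, y) ↦ (l + ε, t y + f l)` of the lexicographically ordered set `ℤ ×ₗ ℝ`. -/
noncomputable def metIso (ε : ℤ) (t : ℝ) (ht : 0 < t) (f : ℤ → ℝ) : (ℤ ×ₗ ℝ) ≃o (ℤ ×ₗ ℝ) where
  toFun p := toLex ((ofLex p).1 + ε, t * (ofLex p).2 + f (ofLex p).1)
  invFun p := toLex ((ofLex p).1 - ε, ((ofLex p).2 - f ((ofLex p).1 - ε)) / t)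
  left_inv p := by
    apply ofLex.injective
    simp only [ofLex_toLex, add_sub_cancel_right]
    rw [mul_div_cancel_left₀ _ ht.ne']
  right_inv p := by
    apply ofLex.injective
    simp only [ofLex_toLex, sub_add_cancel]
    rw [mul_div_cancel₀ _ ht.ne', sub_add_cancel]
  map_rel_iff' := by
    intro p q
    simp only [Equiv.coe_fn_mk, Prod.Lex.le_iff, ofLex_toLex]
    constructor
    · rintro (h | ⟨h1, h2⟩)
      · exact Or.inl (by linarith)
      · have h3 : (ofLex p).1 = (ofLex q).1 := by linarith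
        rw [h3] at h2
        exact Or.inr ⟨h3, le_of_mul_le_mul_left (by linarith) ht⟩
    · rintro (h | ⟨h1, h2⟩)
      · exact Or.inl (by linarith)
      · rw [h1]
        refine Or.inr ⟨rfl, ?_⟩
        have := mul_le_mul_of_nonneg_left h2 ht.le
        linarith

theorem metIso_apply (ε : ℤ) (t : ℝ) (ht : 0 < t) (f : ℤ → ℝ) (l : ℤ) (y : ℝ) :
    metIso ε t ht f (toLex (l, y)) = toLex (l + ε, t * y + f l) := rfl

theorem metIso_inv_apply (ε : ℤ) (t : ℝ) (ht : 0 < t) (f : ℤ → ℝ) (l : ℤ) (y : ℝ) :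
    (metIso ε t ht f)⁻¹ (toLex (l, y)) = toLex (l - ε, (y - f (l - ε)) / t) := rfl

/-- `s` is a real-valued Alexander cocycle of `L` for the parameters `ε` and `t`: the maps
`(l, y) ↦ (l + ε, t y + s v l)` satisfy the relations of `L`. -/
def LOG.AlexCocycle (L : LOG V E) (ε : ℤ) (t : ℝ) (s : V → ℤ → ℝ) : Prop :=
  ∀ e l, t * s (L.lab e) l + s (L.ini e) (l + ε) = t * s (L.ter e) l + s (L.lab e) (l + ε)

theorem met_rel (L : LOG V E) (ε : ℤ) (t : ℝ) (ht : 0 < t) (s : V → ℤ → ℝ)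
    (hs : L.AlexCocycle ε t s) :
    ∀ r ∈ Set.range L.rel, FreeGroup.lift (fun v => metIso ε t ht (s v)) r = 1 := by
  rintro _ ⟨e, rfl⟩
  unfold LOG.rel
  simp only [map_mul, map_inv, FreeGroup.lift_apply_of]
  rw [mul_inv_eq_one, mul_inv_eq_iff_eq_mul]
  ext x
  obtain ⟨⟨l, y⟩, rfl⟩ := toLex.surjective x
  simp only [RelIso.mul_apply, metIso_apply]
  have h := hs e l
  rw [show t * (t * y + s (L.lab e) l) + s (L.ini e) (l + ε) =
    t * (t * y + s (L.ter e) l) + s (L.lab e) (l + ε) by linarith]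

/-- the metabelian action of the group on `ℤ ×ₗ ℝ` -/
noncomputable def metHom (L : LOG V E) (ε : ℤ) (t : ℝ) (ht : 0 < t) (s : V → ℤ → ℝ)
    (hs : L.AlexCocycle ε t s) : L.G →* ((ℤ ×ₗ ℝ) ≃o (ℤ ×ₗ ℝ)) :=
  PresentedGroup.toGroup (f := fun v => metIso ε t ht (s v)) (met_rel L ε t ht s hs)

theorem metHom_gen (L : LOG V E) (ε : ℤ) (t : ℝ) (ht : 0 < t) (s : V → ℤ → ℝ)
    (hs : L.AlexCocycle ε t s) (v : V) :
    metHom L ε t ht s hs (L.gen v) = metIso ε t ht (s v) := by
  unfold metHom LOG.gen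
  exact PresentedGroup.toGroup.of (met_rel L ε t ht s hs)

/-- The value of the corner of the 2-cell of the edge `e` at its side `k`, where `(m e, y e)` is the
point of the edge `e`: its image under the inverse of the initial point of the side. -/
noncomputable def LOG.corner (L : LOG V E) (ε : ℤ) (t : ℝ) (s : V → ℤ → ℝ) (m : E → ℤ) (y : E → ℝ)
    (e : E) : Fin 4 → ℤ ×ₗ ℝ :=
  ![toLex (m e, y e), toLex (m e - ε, (y e - s (L.ini e) (m e - ε)) / t), toLex (m e, y e),
    toLex (m e - ε, (y e - s (L.lab e) (m e - ε)) / t)]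

theorem met_val (L : LOG V E) (ε : ℤ) (t : ℝ) (ht : 0 < t) (s : V → ℤ → ℝ)
    (hs : L.AlexCocycle ε t s) (m : E → ℤ) (y : E → ℝ) (e : E) (k : Fin 4) :
    (metHom L ε t ht s hs (L.sg e k))⁻¹ (toLex (m e, y e)) = L.corner ε t s m y e k := by
  fin_cases k
  · show (metHom L ε t ht s hs 1)⁻¹ (toLex (m e, y e)) = toLex (m e, y e)
    rw [map_one, inv_one]; rfl
  · show (metHom L ε t ht s hs (L.gen (L.ini e)))⁻¹ (toLex (m e, y e)) = _
    rw [metHom_gen, metIso_inv_apply]; rfl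
  · show (metHom L ε t ht s hs 1)⁻¹ (toLex (m e, y e)) = toLex (m e, y e)
    rw [map_one, inv_one]; rfl
  · show (metHom L ε t ht s hs (L.gen (L.lab e)))⁻¹ (toLex (m e, y e)) = _
    rw [metHom_gen, metIso_inv_apply]; rfl

/-! ### the group of these maps is locally indicable -/

theorem metIso_mul (k k' : ℤ) (t t' : ℝ) (ht : 0 < t) (ht' : 0 < t') (f f' : ℤ → ℝ) :
    metIso k t ht f * metIso k' t' ht' f' =
      metIso (k' + k) (t * t') (mul_pos ht ht') (fun l => t * f' l + f (l + k')) := by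
  ext x
  obtain ⟨⟨l, y⟩, rfl⟩ := toLex.surjective x
  rw [RelIso.mul_apply]
  simp only [metIso_apply]
  rw [add_assoc, show t * (t' * y + f' l) + f (l + k') = t * t' * y + (t * f' l + f (l + k')) by
    ring]

/-- the group of the maps `(l, y) ↦ (l + k, t y + f l)` -/
noncomputable def metGroup : Subgroup ((ℤ ×ₗ ℝ) ≃o (ℤ ×ₗ ℝ)) where
  carrier := {α | ∃ (k : ℤ) (t : ℝ) (ht : 0 < t) (f : ℤ → ℝ), α = metIso k t ht f}
  one_mem' := ⟨0, 1, one_pos, fun _ => 0, by
    ext x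
    obtain ⟨⟨l, y⟩, rfl⟩ := toLex.surjective x
    rw [metIso_apply, add_zero, add_zero, one_mul]
    rfl⟩
  mul_mem' := by
    rintro _ _ ⟨k, t, ht, f, rfl⟩ ⟨k', t', ht', f', rfl⟩
    exact ⟨_, _, _, _, metIso_mul k k' t t' ht ht' f f'⟩
  inv_mem' := by
    rintro _ ⟨k, t, ht, f, rfl⟩
    refine ⟨-k, t⁻¹, inv_pos.2 ht, fun l => - (f (l - k) / t), ?_⟩
    ext x
    obtain ⟨⟨l, y⟩, rfl⟩ := toLex.surjective x
    rw [metIso_inv_apply, metIso_apply, sub_eq_add_neg l k,
      show (y - f (l + -k)) / t = t⁻¹ * y + -(f (l + -k) / t) by ring]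

/-- the shift of the levels -/
noncomputable def levHom' : metGroup →* Multiplicative ℝ :=
  MonoidHom.mk' (fun α => Multiplicative.ofAdd (((ofLex (α.1 (toLex (0, 0)))).1 : ℤ) : ℝ)) (by
    rintro ⟨_, k, t, ht, f, rfl⟩ ⟨_, k', t', ht', f', rfl⟩
    apply Multiplicative.toAdd.injective
    show (((ofLex ((metIso k t ht f * metIso k' t' ht' f') (toLex (0, 0)))).1 : ℤ) : ℝ) =
      (((ofLex (metIso k t ht f (toLex (0, 0)))).1 : ℤ) : ℝ) +
        (((ofLex (metIso k' t' ht' f' (toLex (0, 0)))).1 : ℤ) : ℝ)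
    rw [metIso_mul]
    simp only [metIso_apply, ofLex_toLex]
    push_cast
    ring)

/-- the logarithm of the slope -/
noncomputable def slopeHom : metGroup →* Multiplicative ℝ :=
  MonoidHom.mk' (fun α => Multiplicative.ofAdd
    (Real.log ((ofLex (α.1 (toLex (0, 1)))).2 - (ofLex (α.1 (toLex (0, 0)))).2))) (by
    rintro ⟨_, k, t, ht, f, rfl⟩ ⟨_, k', t', ht', f', rfl⟩
    apply Multiplicative.toAdd.injective
    show Real.log ((ofLex ((metIso k t ht f * metIso k' t' ht' f') (toLex (0, 1)))).2 -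
        (ofLex ((metIso k t ht f * metIso k' t' ht' f') (toLex (0, 0)))).2) =
      Real.log ((ofLex (metIso k t ht f (toLex (0, 1)))).2 -
        (ofLex (metIso k t ht f (toLex (0, 0)))).2) +
      Real.log ((ofLex (metIso k' t' ht' f' (toLex (0, 1)))).2 -
        (ofLex (metIso k' t' ht' f' (toLex (0, 0)))).2)
    rw [metIso_mul]
    simp only [metIso_apply, ofLex_toLex]
    rw [show t * t' * 1 + (t * f' 0 + f (0 + k')) - (t * t' * 0 + (t * f' 0 + f (0 + k'))) = t * t'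
      by ring, show t * 1 + f 0 - (t * 0 + f 0) = t by ring,
      show t' * 1 + f' 0 - (t' * 0 + f' 0) = t' by ring, Real.log_mul ht.ne' ht'.ne'])

theorem locInd_metGroup : LocInd metGroup := by
  refine LocInd.ext locInd_real levHom' ?_
  intro H hH hne hk
  have : Group.FG H := (Group.fg_iff_subgroup_fg H).2 hH
  have hlev : ∀ x : metGroup, x ∈ H → ∃ (t : ℝ) (ht : 0 < t) (f : ℤ → ℝ),
      x.1 = metIso 0 t ht f := by
    rintro ⟨_, k, t, ht, f, rfl⟩ hx
    have h1 : (((ofLex (metIso k t ht f (toLex (0, 0)))).1 : ℤ) : ℝ) = 0 := hk hx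
    rw [metIso_apply, ofLex_toLex] at h1
    have h2 : k = 0 := by
      have : ((0 + k : ℤ) : ℝ) = 0 := h1
      rw [zero_add] at this
      exact_mod_cast this
    subst h2
    exact ⟨t, ht, f, rfl⟩
  by_cases hsl : ∃ x : H, (slopeHom.comp H.subtype) x ≠ 1
  · obtain ⟨x, hx⟩ := hsl
    exact real_to_int (slopeHom.comp H.subtype) x hx
  push Not at hsl
  have hform : ∀ x : metGroup, x ∈ H → ∃ f, x.1 = metIso 0 1 one_pos f := by
    intro x hx
    obtain ⟨t, ht, f, hf⟩ := hlev x hx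
    have h1 : Real.log ((ofLex (x.1 (toLex (0, 1)))).2 - (ofLex (x.1 (toLex (0, 0)))).2) = 0 :=
      hsl ⟨x, hx⟩
    rw [hf] at h1
    simp only [metIso_apply, ofLex_toLex] at h1
    rw [show t * 1 + f 0 - (t * 0 + f 0) = t by ring] at h1
    have h3 : t = 1 := by
      rcases Real.log_eq_zero.1 h1 with h | h | h
      · linarith
      · exact h
      · linarith
    subst h3
    exact ⟨f, hf⟩
  have h1 : ∃ x ∈ H, x ≠ 1 := by
    by_contra hcon
    push Not at hcon
    exact hne ((Subgroup.eq_bot_iff_forall H).2 hcon)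
  obtain ⟨x, hx, hx1⟩ := h1
  obtain ⟨f, hf⟩ := hform x hx
  have hl : ∃ l, f l ≠ 0 := by
    by_contra hcon
    push Not at hcon
    apply hx1
    apply Subtype.ext
    rw [hf]
    ext z
    obtain ⟨⟨l, y⟩, rfl⟩ := toLex.surjective z
    rw [metIso_apply, hcon l, add_zero, add_zero, one_mul]
    rfl
  obtain ⟨l, hl⟩ := hl
  let τ : H →* Multiplicative ℝ :=
    MonoidHom.mk' (fun α => Multiplicative.ofAdd ((ofLex (α.1.1 (toLex (l, 0)))).2)) (by
      rintro ⟨α, hα⟩ ⟨β, hβ⟩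
      obtain ⟨a, ha⟩ := hform α hα
      obtain ⟨b, hb⟩ := hform β hβ
      apply Multiplicative.toAdd.injective
      show (ofLex ((α.1 * β.1) (toLex (l, 0)))).2 =
        (ofLex (α.1 (toLex (l, 0)))).2 + (ofLex (β.1 (toLex (l, 0)))).2
      rw [ha, hb, metIso_mul]
      simp only [metIso_apply, ofLex_toLex, add_zero]
      ring)
  refine real_to_int τ ⟨x, hx⟩ ?_
  intro h
  have h0 : (ofLex (x.1 (toLex (l, 0)))).2 = 0 := h
  rw [hf, metIso_apply, ofLex_toLex] at h0
  simp only [mul_zero, zero_add] at h0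
  exact hl h0

theorem metHom_mem (L : LOG V E) (ε : ℤ) (t : ℝ) (ht : 0 < t) (s : V → ℤ → ℝ)
    (hs : L.AlexCocycle ε t s) (g : L.G) : metHom L ε t ht s hs g ∈ metGroup := by
  have h1 : Subgroup.closure (Set.range (PresentedGroup.of (rels := Set.range L.rel))) ≤
      metGroup.comap (metHom L ε t ht s hs) := by
    rw [Subgroup.closure_le]
    rintro _ ⟨v, rfl⟩
    show metHom L ε t ht s hs (L.gen v) ∈ metGroup
    rw [metHom_gen]
    exact ⟨ε, t, ht, s v, rfl⟩
  rw [PresentedGroup.closure_range_of] at h1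
  exact h1 (Subgroup.mem_top g)

end Pool.Agent.TH625.LOG
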