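import Pool.Agent.TH625.LOG.Main

/-!
# Labelled oriented trees whose graph `I` has one cycle
-/

set_option autoImplicit false

namespace Pool.Agent.TH625.LOG

variable {V E : Type}

/-- distance functions -/
theorem exists_rank {α : Type} (r : α → α → Prop) (ρ : Set α) : ∃ d : α → ℕ,
    ∀ x, (∃ a ∈ ρ, Relation.ReflTransGen r a x) → x ∉ ρ → ∃ y, r y x ∧ d y < d x := by
  classical
  let reach : ℕ → Set α := fun n => Nat.rec ρ (fun _ S => {x | ∃ y ∈ S, r y x}) n
  have hex : ∀ x, (∃ a ∈ ρ, Relation.ReflTransGen r a x) → ∃ n, x ∈ reach n := by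
    rintro x ⟨a, ha, h⟩
    induction h with
    | refl => exact ⟨0, ha⟩
    | tail _ hr ih =>
      obtain ⟨n, hn⟩ := ih
      exact ⟨n + 1, _, hn, hr⟩
  refine ⟨fun x => sInf {n | x ∈ reach n}, ?_⟩
  intro x hx hρ
  have h1 : x ∈ reach (sInf {n | x ∈ reach n}) := Nat.sInf_mem (hex x hx)
  generalize hk : sInf {n | x ∈ reach n} = k at h1
  cases k with
  | zero => exact absurd h1 hρ
  | succ k =>
    obtain ⟨y, hy, hr⟩ := h1
    refine ⟨y, hr, ?_⟩
    have h2 : sInf {n | y ∈ reach n} ≤ k := Nat.sInf_le hy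
    show sInf {n | y ∈ reach n} < sInf {n | x ∈ reach n}
    omega

/-- The edge `e` of the graph `I` joins `a` and `b`: these are its initial vertex and its label. -/
def LOG.Joins (L : LOG V E) (e : E) (a b : V) : Prop :=
  (L.ini e = a ∧ L.lab e = b) ∨ (L.lab e = a ∧ L.ini e = b)

theorem lex_lt {a b : ℤ} {x y : ℝ} (h : a = b) (hxy : x < y) :
    (toLex (a, x) : ℤ ×ₗ ℝ) < toLex (b, y) := by
  rw [Prod.Lex.lt_iff]
  exact Or.inr ⟨h, hxy⟩

theorem lex_lt' {a b : ℤ} {x y : ℝ} (h : a < b) :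
    (toLex (a, x) : ℤ ×ₗ ℝ) < toLex (b, y) := by
  rw [Prod.Lex.lt_iff]
  exact Or.inl h

theorem uni_core [Fintype V] [Fintype E] (L : LOG V E)
    (hcard : Fintype.card V = Fintype.card E + 1) (e₀ : E) (C W : Set V)
    (hCu : L.ter e₀ ∈ C) (hCi : L.ini e₀ ∉ C) (hCl : L.lab e₀ ∉ C)
    (hCe : ∀ e, e ≠ e₀ → (L.ini e ∈ C ↔ L.lab e ∈ C))
    (hWl : L.lab e₀ ∈ W) (p : V → E) (q : V → V) (d : V → ℕ)
    (hp : ∀ v, v ≠ L.ter e₀ → v ≠ L.ini e₀ →
      p v ≠ e₀ ∧ L.Joins (p v) v (q v) ∧ d (q v) < d v ∧ (v ∈ W → q v ∈ W))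
    (s : V → ℤ → ℝ) (hs : L.AlexCocycle (-1) 1 s)
    (hgap : ∀ e, e ≠ e₀ → L.ini e ∈ W → L.lab e ∈ W → L.ter e ∈ C →
      s (L.lab e) 1 < s (L.lab e₀) 1) : L.MetabelianTest := by
  classical
  have huv : L.ter e₀ ≠ L.ini e₀ := fun h => hCi (h ▸ hCu)
  -- the parent edges give a bijection
  let X := {v : V // v ≠ L.ter e₀ ∧ v ≠ L.ini e₀}
  let Y := {e : E // e ≠ e₀}
  let P : X → Y := fun v => ⟨p v.1, (hp v.1 v.2.1 v.2.2).1⟩
  have hPinj : Function.Injective P := by
    rintro ⟨v, hv1, hv2⟩ ⟨v', hv1', hv2'⟩ h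
    have h0 : p v = p v' := congrArg Subtype.val h
    obtain ⟨-, hj, hd, -⟩ := hp v hv1 hv2
    obtain ⟨-, hj', hd', -⟩ := hp v' hv1' hv2'
    apply Subtype.ext
    show v = v'
    rw [← h0] at hj'
    rcases hj with ⟨a1, a2⟩ | ⟨a1, a2⟩ <;> rcases hj' with ⟨b1, b2⟩ | ⟨b1, b2⟩
    · exact a1.symm.trans b1
    · exfalso
      have e1 : v' = q v := b1.symm.trans a2
      have e2 : v = q v' := a1.symm.trans b2
      rw [← e1] at hd; rw [← e2] at hd'; omega
    · exfalso
      have e1 : v' = q v := b1.symm.trans a2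
      have e2 : v = q v' := a1.symm.trans b2
      rw [← e1] at hd; rw [← e2] at hd'; omega
    · exact a1.symm.trans b1
  have hcX : Fintype.card X = Fintype.card V - 1 - 1 := by
    rw [Fintype.card_of_subtype ((Finset.univ.erase (L.ter e₀)).erase (L.ini e₀))
      (by intro v; simp only [Finset.mem_erase, Finset.mem_univ, and_true]; tauto),
      Finset.card_erase_of_mem (by simp [huv.symm]), Finset.card_erase_of_mem (by simp),
      Finset.card_univ]
  have hcY : Fintype.card Y = Fintype.card E - 1 := by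
    rw [Fintype.card_of_subtype (Finset.univ.erase e₀) (by intro v; simp),
      Finset.card_erase_of_mem (by simp), Finset.card_univ]
  have hPsurj : Function.Surjective P :=
    ((Fintype.bijective_iff_injective_and_card P).2 ⟨hPinj, by rw [hcX, hcY]; omega⟩).2
  -- the children
  have hch : ∀ e : E, ∃ v : V, e ≠ e₀ → v ≠ L.ter e₀ ∧ v ≠ L.ini e₀ ∧ p v = e := by
    intro e
    by_cases he : e = e₀
    · exact ⟨L.ini e₀, fun h => absurd he h⟩
    · obtain ⟨⟨v, h1, h2⟩, hv⟩ := hPsurj ⟨e, he⟩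
      exact ⟨v, fun _ => ⟨h1, h2, congrArg Subtype.val hv⟩⟩
  choose ch hch using hch
  have chj : ∀ e, e ≠ e₀ → L.Joins e (ch e) (q (ch e)) := fun e he => by
    obtain ⟨h1, h2, h3⟩ := hch e he
    have h4 := (hp _ h1 h2).2.1
    rw [h3] at h4
    exact h4
  have chd : ∀ e, e ≠ e₀ → d (q (ch e)) < d (ch e) := fun e he => by
    obtain ⟨h1, h2, h3⟩ := hch e he
    exact (hp _ h1 h2).2.2.1
  have chW : ∀ e, e ≠ e₀ → ch e ∈ W → q (ch e) ∈ W := fun e he => by
    obtain ⟨h1, h2, h3⟩ := hch e he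
    exact (hp _ h1 h2).2.2.2
  have chinj : ∀ e f, e ≠ e₀ → f ≠ e₀ → ch e = ch f → e = f := fun e f he hf h => by
    rw [← (hch e he).2.2, ← (hch f hf).2.2, h]
  -- the ends of an edge
  have ends : ∀ e, e ≠ e₀ → ∀ v, (L.ini e = v ∨ L.lab e = v) → v = ch e ∨ v = q (ch e) := by
    intro e he v hv
    rcases chj e he with ⟨h1, h2⟩ | ⟨h1, h2⟩ <;> rcases hv with h | h
    · exact Or.inl (h.symm.trans h1)
    · exact Or.inr (h.symm.trans h2)
    · exact Or.inr (h.symm.trans h2)
    · exact Or.inl (h.symm.trans h1)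
  -- comparison of two edges at the child of the first
  have cmp : ∀ e f, e ≠ e₀ → f ≠ e₀ → f ≠ e → (L.ini f = ch e ∨ L.lab f = ch e) →
      q (ch f) = ch e := by
    intro e f he hf hne h
    rcases ends f hf (ch e) h with h1 | h1
    · exact absurd (chinj f e hf he h1.symm) hne
    · exact h1.symm
  have chC : ∀ e, e ≠ e₀ → (ch e ∈ C ↔ L.ini e ∈ C) := by
    intro e he
    rcases chj e he with ⟨h1, h2⟩ | ⟨h1, h2⟩
    · rw [h1]
    · rw [← h1]; exact (hCe e he).symm
  -- constants
  obtain ⟨N, hN⟩ : ∃ N : ℕ, ∀ v, d v < N := ⟨(∑ v, d v) + 1, fun v =>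
    Nat.lt_succ_of_le (Finset.single_le_sum (fun _ _ => Nat.zero_le _) (Finset.mem_univ v))⟩
  have hN' : ∀ v, (d v : ℝ) < N := fun v => by exact_mod_cast hN v
  let g : E → ℝ := fun e => s (L.lab e₀) 1 - s (L.lab e) 1
  obtain ⟨R, hR0, hR⟩ : ∃ R : ℝ, 0 < R ∧ ∀ e, 0 < g e → 2 * N + 2 ≤ R * g e := by
    refine ⟨(∑ e, if 0 < g e then (2 * N + 2) / g e else 0) + 1, ?_, ?_⟩
    · have : 0 ≤ ∑ e, if 0 < g e then (2 * (N : ℝ) + 2) / g e else 0 :=
        Finset.sum_nonneg fun e _ => by split_ifs with h <;> positivity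
      linarith
    · intro e he
      have h1 : (2 * (N : ℝ) + 2) / g e ≤ ∑ e, if 0 < g e then (2 * (N : ℝ) + 2) / g e else 0 := by
        have h2 := Finset.single_le_sum (s := Finset.univ)
          (f := fun e => if 0 < g e then (2 * (N : ℝ) + 2) / g e else 0)
          (fun e _ => by split_ifs with h <;> positivity) (Finset.mem_univ e)
        rw [if_pos he] at h2
        exact h2
      have h2 : 2 * (N : ℝ) + 2 = (2 * (N : ℝ) + 2) / g e * g e := by field_simp
      calc 2 * (N : ℝ) + 2 = (2 * (N : ℝ) + 2) / g e * g e := h2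
        _ ≤ _ := by
          apply mul_le_mul_of_nonneg_right _ he.le
          linarith
  obtain ⟨H, hH0, hH⟩ : ∃ H : ℝ, 0 ≤ H ∧ ∀ e, 2 * N + 2 + R * s (L.lab e) 1 ≤
      H + R * s (L.lab e₀) 1 := by
    refine ⟨(∑ e, |2 * N + 2 + R * s (L.lab e) 1 - R * s (L.lab e₀) 1|), ?_, ?_⟩
    · exact Finset.sum_nonneg fun e _ => abs_nonneg _
    · intro e
      have h2 := Finset.single_le_sum (s := Finset.univ)
          (f := fun e => |2 * N + 2 + R * s (L.lab e) 1 - R * s (L.lab e₀) 1|)
          (fun e _ => abs_nonneg _) (Finset.mem_univ e)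
      have h3 := le_abs_self (2 * N + 2 + R * s (L.lab e) 1 - R * s (L.lab e₀) 1)
      linarith
  let K : ℝ := N - R * s (L.lab e₀) 1 + 1
  let y : E → ℝ := fun e => if e = e₀ then N else if L.ini e ∈ C then K + d (ch e) else
    if ch e ∈ W then d (ch e) else H + d (ch e)
  let m : E → ℤ := fun e => if L.ini e ∈ C then 1 else 0
  let s' : V → ℤ → ℝ := fun v l => R * s v l
  let cor : E → Fin 4 := fun e => if e = e₀ then 3 else if L.ini e = ch e then 0 else 2
  have y0 : y e₀ = N := if_pos rfl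
  have yC : ∀ e, e ≠ e₀ → L.ini e ∈ C → y e = K + d (ch e) := fun e h1 h2 => by
    show (if e = e₀ then (N : ℝ) else _) = _
    rw [if_neg h1, if_pos h2]
  have yW : ∀ e, e ≠ e₀ → L.ini e ∉ C → ch e ∈ W → y e = d (ch e) := fun e h1 h2 h3 => by
    show (if e = e₀ then (N : ℝ) else _) = _
    rw [if_neg h1, if_neg h2, if_pos h3]
  have yH : ∀ e, e ≠ e₀ → L.ini e ∉ C → ch e ∉ W → y e = H + d (ch e) := fun e h1 h2 h3 => by
    show (if e = e₀ then (N : ℝ) else _) = _
    rw [if_neg h1, if_neg h2, if_neg h3]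
  have m1 : ∀ e, L.ini e ∈ C → m e = 1 := fun e h => if_pos h
  have m0 : ∀ e, L.ini e ∉ C → m e = 0 := fun e h => if_neg h
  have mnn : ∀ e, 0 ≤ m e := fun e => by
    by_cases h : L.ini e ∈ C
    · rw [m1 e h]; norm_num
    · rw [m0 e h]
  -- the crossing inequality
  have hX : ∀ e, e ≠ e₀ → L.ini e ∉ C → L.ter e ∈ C → ∀ v, K + d v < y e - R * s (L.lab e) 1 := by
    intro e he h1 h2 v
    have h3 := hN' v
    by_cases hw : ch e ∈ W
    · have hq := chW e he hw
      have hiw : L.ini e ∈ W ∧ L.lab e ∈ W := by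
        rcases chj e he with ⟨a, b⟩ | ⟨a, b⟩
        · rw [a, b]; exact ⟨hw, hq⟩
        · rw [a, b]; exact ⟨hq, hw⟩
      have h4 := hR e (sub_pos.2 (hgap e he hiw.1 hiw.2 h2))
      rw [yW e he h1 hw]
      have h5 : (0 : ℝ) ≤ d (ch e) := Nat.cast_nonneg _
      show N - R * s (L.lab e₀) 1 + 1 + d v < d (ch e) - R * s (L.lab e) 1
      have h6 : R * g e = R * s (L.lab e₀) 1 - R * s (L.lab e) 1 := by
        show R * (s (L.lab e₀) 1 - s (L.lab e) 1) = _
        ring
      linarith
    · rw [yH e he h1 hw]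
      have h4 := hH e
      have h5 : (0 : ℝ) ≤ d (ch e) := Nat.cast_nonneg _
      show N - R * s (L.lab e₀) 1 + 1 + d v < H + d (ch e) - R * s (L.lab e) 1
      linarith
  refine ⟨-1, 1, s', m, y, cor, one_pos, ?_, ?_⟩
  · intro e l
    have h := hs e l
    show 1 * (R * s (L.lab e) l) + R * s (L.ini e) (l + -1) =
      1 * (R * s (L.ter e) l) + R * s (L.lab e) (l + -1)
    linear_combination R * h
  have c0 : ∀ e, L.corner (-1) 1 s' m y e 0 = toLex (m e, y e) := fun e => rfl
  have c2 : ∀ e, L.corner (-1) 1 s' m y e 2 = toLex (m e, y e) := fun e => rfl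
  have c1 : ∀ e, L.corner (-1) 1 s' m y e 1 =
      toLex (m e + 1, y e - R * s (L.ini e) (m e + 1)) := fun e => by
    show toLex (m e - -1, (y e - s' (L.ini e) (m e - -1)) / 1) = _
    rw [sub_neg_eq_add, div_one]
  have c3 : ∀ e, L.corner (-1) 1 s' m y e 3 =
      toLex (m e + 1, y e - R * s (L.lab e) (m e + 1)) := fun e => by
    show toLex (m e - -1, (y e - s' (L.lab e) (m e - -1)) / 1) = _
    rw [sub_neg_eq_add, div_one]
  intro e e' k' hsv hne
  by_cases he : e = e₀
  · -- the edge e₀ selects its terminal vertex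
    subst he
    have hcor : cor e = 3 := if_pos rfl
    rw [hcor] at hsv hne ⊢
    rw [c3, m0 e hCi, y0]
    have hsv3 : L.sv e 3 = L.ter e := rfl
    rw [hsv3] at hsv
    fin_cases k'
    · have h1 : L.ini e' = L.ter e := hsv
      have h2 : L.ini e' ∈ C := h1 ▸ hCu
      have h3 : e' ≠ e := fun h => hCi (h ▸ h2)
      show _ < L.corner (-1) 1 s' m y e' 0
      rw [c0, m1 e' h2, yC e' h3 h2]
      refine lex_lt (by norm_num) ?_
      have : (0 : ℝ) ≤ d (ch e') := Nat.cast_nonneg _
      show (N : ℝ) - R * s (L.lab e) (0 + 1) < N - R * s (L.lab e) 1 + 1 + d (ch e')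
      rw [zero_add]
      linarith
    · have h1 : L.lab e' = L.ter e := hsv
      have h3 : e' ≠ e := fun h => hCl (by rw [← h, h1]; exact hCu)
      have h2 : L.ini e' ∈ C := (hCe e' h3).2 (h1 ▸ hCu)
      show _ < L.corner (-1) 1 s' m y e' 1
      rw [c1, m1 e' h2]
      exact lex_lt' (by norm_num)
    · have h1 : L.lab e' = L.ter e := hsv
      have h3 : e' ≠ e := fun h => hCl (by rw [← h, h1]; exact hCu)
      have h2 : L.ini e' ∈ C := (hCe e' h3).2 (h1 ▸ hCu)
      show _ < L.corner (-1) 1 s' m y e' 2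
      rw [c2, m1 e' h2, yC e' h3 h2]
      refine lex_lt (by norm_num) ?_
      have : (0 : ℝ) ≤ d (ch e') := Nat.cast_nonneg _
      show (N : ℝ) - R * s (L.lab e) (0 + 1) < N - R * s (L.lab e) 1 + 1 + d (ch e')
      rw [zero_add]
      linarith
    · have h1 : L.ter e' = L.ter e := hsv
      have h3 : e' ≠ e := by
        rcases hne with h | h
        · exact h
        · exact absurd rfl h
      show _ < L.corner (-1) 1 s' m y e' 3
      rw [c3]
      by_cases h2 : L.ini e' ∈ C
      · rw [m1 e' h2]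
        exact lex_lt' (by norm_num)
      · rw [m0 e' h2]
        refine lex_lt rfl ?_
        have h4 := hX e' h3 h2 (h1 ▸ hCu) (L.ter e)
        have : (0 : ℝ) ≤ d (L.ter e) := Nat.cast_nonneg _
        have h5 : K = N - R * s (L.lab e) 1 + 1 := rfl
        rw [zero_add]
        linarith
  · -- the other edges select their children
    have hk : (cor e = 0 ∧ L.ini e = ch e) ∨ (cor e = 2 ∧ L.ini e ≠ ch e ∧ L.lab e = ch e) := by
      by_cases h : L.ini e = ch e
      · left
        refine ⟨?_, h⟩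
        show (if e = e₀ then (3 : Fin 4) else if L.ini e = ch e then 0 else 2) = 0
        rw [if_neg he, if_pos h]
      · right
        refine ⟨?_, h, ?_⟩
        · show (if e = e₀ then (3 : Fin 4) else if L.ini e = ch e then 0 else 2) = 2
          rw [if_neg he, if_neg h]
        · rcases chj e he with h1 | h1
          · exact absurd h1.1 h
          · exact h1.1
    have hval : L.corner (-1) 1 s' m y e (cor e) = toLex (m e, y e) := by
      rcases hk with h | h
      · rw [h.1, c0]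
      · rw [h.1, c2]
    have hsvc : L.sv e (cor e) = ch e := by
      rcases hk with h | h
      · rw [h.1]; exact h.2
      · rw [h.1]; exact h.2.2
    rw [hsvc] at hsv
    rw [hval]
    -- comparison with the corners at an initial vertex or at the second label corner
    have key : ∀ e', (L.ini e' = ch e ∨ L.lab e' = ch e) → e' ≠ e → e' ≠ e₀ →
        m e' = m e ∧ y e < y e' := by
      intro e' hv h3 h4
      have hq := cmp e e' he h4 h3 hv
      have hd := chd e' h4
      rw [hq] at hd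
      have hd' : (d (ch e) : ℝ) < d (ch e') := by exact_mod_cast hd
      have hiff : L.ini e' ∈ C ↔ L.ini e ∈ C := by
        rw [← chC e he]
        rcases hv with h | h
        · rw [h]
        · rw [hCe e' h4, h]
      by_cases h5 : L.ini e ∈ C
      · have h6 := hiff.2 h5
        refine ⟨by rw [m1 e' h6, m1 e h5], ?_⟩
        rw [yC e he h5, yC e' h4 h6]
        linarith
      · have h6 : L.ini e' ∉ C := fun h => h5 (hiff.1 h)
        refine ⟨by rw [m0 e' h6, m0 e h5], ?_⟩
        by_cases h7 : ch e ∈ W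
        · rw [yW e he h5 h7]
          by_cases h8 : ch e' ∈ W
          · rw [yW e' h4 h6 h8]; exact hd'
          · rw [yH e' h4 h6 h8]; linarith
        · have h8 : ch e' ∉ W := fun h => h7 (hq ▸ chW e' h4 h)
          rw [yH e he h5 h7, yH e' h4 h6 h8]
          linarith
    have hloop : ∀ e', e' = e → L.ini e' = ch e → L.lab e' = ch e → False := by
      intro e' h h1 h2
      subst h
      have hd := chd e' he
      rcases chj e' he with h3 | h3
      · rw [← h3.2, h2] at hd; omega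
      · rw [← h3.2, h1] at hd; omega
    have h0child : ch e ≠ L.ini e₀ := (hch e he).2.1
    have huchild : ch e ≠ L.ter e₀ := (hch e he).1
    fin_cases k'
    · have h1 : L.ini e' = ch e := hsv
      show _ < L.corner (-1) 1 s' m y e' 0
      rw [c0]
      have h4 : e' ≠ e₀ := fun h => h0child (by rw [← h1, h])
      by_cases h3 : e' = e
      · exfalso
        rcases hk with h | h
        · rcases hne with h5 | h5
          · exact h5 h3
          · exact h5 h.1.symm
        · exact h.2.1 (by rw [← h1, h3])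
      · obtain ⟨h5, h6⟩ := key e' (Or.inl h1) h3 h4
        exact lex_lt h5.symm h6
    · have h1 : L.lab e' = ch e := hsv
      show _ < L.corner (-1) 1 s' m y e' 1
      rw [c1]
      apply lex_lt'
      by_cases h4 : e' = e₀
      · have h5 : L.ini e ∉ C := by
          rw [← chC e he, ← h1, h4]; exact hCl
        rw [m0 e h5]
        have := mnn e'
        omega
      · by_cases h3 : e' = e
        · rw [h3]; omega
        · have h5 := (key e' (Or.inr h1) h3 h4).1
          omega
    · have h1 : L.lab e' = ch e := hsv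
      show _ < L.corner (-1) 1 s' m y e' 2
      rw [c2]
      by_cases h4 : e' = e₀
      · have h5 : L.ini e ∉ C := by
          rw [← chC e he, ← h1, h4]; exact hCl
        have h6 : ch e ∈ W := by rw [← h1, h4]; exact hWl
        rw [m0 e h5, h4, m0 e₀ hCi, y0, yW e he h5 h6]
        exact lex_lt rfl (hN' _)
      · by_cases h3 : e' = e
        · exfalso
          rcases hk with h | h
          · exact hloop e' h3 (by rw [h3]; exact h.2) h1
          · rcases hne with h5 | h5
            · exact h5 h3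
            · exact h5 h.1.symm
        · obtain ⟨h5, h6⟩ := key e' (Or.inr h1) h3 h4
          exact lex_lt h5.symm h6
    · have h1 : L.ter e' = ch e := hsv
      show _ < L.corner (-1) 1 s' m y e' 3
      rw [c3]
      have h4 : e' ≠ e₀ := fun h => huchild (by rw [← h1, h])
      by_cases h5 : L.ini e ∈ C
      · rw [m1 e h5]
        by_cases h6 : L.ini e' ∈ C
        · rw [m1 e' h6]
          exact lex_lt' (by norm_num)
        · rw [m0 e' h6]
          refine lex_lt (by norm_num) ?_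
          have h7 : L.ter e' ∈ C := by rw [h1]; exact (chC e he).2 h5
          have h8 := hX e' h4 h6 h7 (ch e)
          rw [yC e he h5, zero_add]
          exact h8
      · rw [m0 e h5]
        apply lex_lt'
        have := mnn e'
        omega

/-- `a` and `b` are joined by a path of the graph `I` (vertex set `V`, every edge `e` joins its
initial vertex and its label) which does not use the edge `e₀` and runs inside `T`. -/
def LOG.IPath (L : LOG V E) (e₀ : E) (T : Set V) (a b : V) : Prop :=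
  Relation.ReflTransGen (fun x y => x ∈ T ∧ y ∈ T ∧ ∃ e, e ≠ e₀ ∧ L.Joins e x y) a b

/-- The graph `I` without its edge `e₀` has two components, one containing the terminal vertex of
`e₀` and the other one both ends of `e₀`; `W` is the vertex set of a path in the second component
which closes `e₀` to a cycle.  There is a real Alexander cocycle `s` which is smaller at the label
of `e` than at the label of `e₀` for all the other edges `e` of `I` inside `W` whose terminal vertex
lies in the first component. -/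
def LOG.UnicyclicTest (L : LOG V E) : Prop :=
  ∃ (e₀ : E) (W : Set V) (s : V → ℤ → ℝ),
    (∀ v, L.IPath e₀ Set.univ (L.ter e₀) v ∨ L.IPath e₀ Set.univ (L.ini e₀) v) ∧
    ¬ L.IPath e₀ Set.univ (L.ter e₀) (L.ini e₀) ∧
    L.lab e₀ ∈ W ∧ (∀ w ∈ W, L.IPath e₀ W (L.ini e₀) w) ∧
    L.AlexCocycle (-1) 1 s ∧
    ∀ e, e ≠ e₀ → L.ini e ∈ W → L.lab e ∈ W → L.IPath e₀ Set.univ (L.ter e₀) (L.ter e) →
      s (L.lab e) 1 < s (L.lab e₀) 1

theorem LOG.Joins.symm {L : LOG V E} {e : E} {a b : V} (h : L.Joins e a b) : L.Joins e b a := by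
  rcases h with ⟨h1, h2⟩ | ⟨h1, h2⟩
  · exact Or.inr ⟨h2, h1⟩
  · exact Or.inl ⟨h2, h1⟩

theorem LOG.IPath.symm {L : LOG V E} {e₀ : E} {T : Set V} {a b : V} (h : L.IPath e₀ T a b) :
    L.IPath e₀ T b a := by
  unfold LOG.IPath at h ⊢
  induction h with
  | refl => exact Relation.ReflTransGen.refl
  | tail _ hr ih =>
    obtain ⟨h1, h2, e, h3, h4⟩ := hr
    exact Relation.ReflTransGen.head ⟨h2, h1, e, h3, h4.symm⟩ ih

theorem LOG.IPath.mono {L : LOG V E} {e₀ : E} {T : Set V} {a b : V} (h : L.IPath e₀ T a b) :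
    L.IPath e₀ Set.univ a b := by
  unfold LOG.IPath at h ⊢
  induction h with
  | refl => exact Relation.ReflTransGen.refl
  | tail _ hr ih =>
    obtain ⟨-, -, e, h3, h4⟩ := hr
    exact Relation.ReflTransGen.tail ih ⟨Set.mem_univ _, Set.mem_univ _, e, h3, h4⟩

theorem metabelian_of_unicyclic [Fintype V] [Fintype E] (L : LOG V E)
    (hcard : Fintype.card V = Fintype.card E + 1) (h : L.UnicyclicTest) : L.MetabelianTest := by
  classical
  obtain ⟨e₀, W, s, h1, h2, h3, h4, h5, h6⟩ := h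
  obtain ⟨d₁, hd₁⟩ := exists_rank
    (fun x y => x ∈ W ∧ y ∈ W ∧ ∃ e, e ≠ e₀ ∧ L.Joins e x y) {L.ini e₀}
  obtain ⟨d₂, hd₂⟩ := exists_rank
    (fun x y => x ∈ Set.univ ∧ y ∈ Set.univ ∧ ∃ e, e ≠ e₀ ∧ L.Joins e x y)
    {L.ter e₀, L.ini e₀}
  obtain ⟨N, hN⟩ : ∃ N : ℕ, ∀ v, d₁ v < N := ⟨(∑ v, d₁ v) + 1, fun v =>
    Nat.lt_succ_of_le (Finset.single_le_sum (fun _ _ => Nat.zero_le _) (Finset.mem_univ v))⟩
  let d : V → ℕ := fun v => if v ∈ W then d₁ v else N + d₂ v
  have dW : ∀ v, v ∈ W → d v = d₁ v := fun v hv => if_pos hv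
  have dN : ∀ v, v ∉ W → d v = N + d₂ v := fun v hv => if_neg hv
  have hpar : ∀ v, ∃ (e : E) (w : V), v ≠ L.ter e₀ → v ≠ L.ini e₀ →
      e ≠ e₀ ∧ L.Joins e v w ∧ d w < d v ∧ (v ∈ W → w ∈ W) := by
    intro v
    by_cases hu : v = L.ter e₀
    · exact ⟨e₀, v, fun h => absurd hu h⟩
    by_cases hv : v = L.ini e₀
    · exact ⟨e₀, v, fun _ h => absurd hv h⟩
    by_cases hw : v ∈ W
    · obtain ⟨w, ⟨hwW, -, e, he, hj⟩, hlt⟩ := hd₁ v ⟨_, rfl, h4 v hw⟩ hv
      exact ⟨e, w, fun _ _ => ⟨he, hj.symm, by rw [dW w hwW, dW v hw]; exact hlt, fun _ => hwW⟩⟩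
    · have hr : ∃ a ∈ ({L.ter e₀, L.ini e₀} : Set V), Relation.ReflTransGen
          (fun x y => x ∈ Set.univ ∧ y ∈ Set.univ ∧ ∃ e, e ≠ e₀ ∧ L.Joins e x y) a v := by
        rcases h1 v with h | h
        · exact ⟨_, Or.inl rfl, h⟩
        · exact ⟨_, Or.inr rfl, h⟩
      obtain ⟨w, ⟨-, -, e, he, hj⟩, hlt⟩ := hd₂ v hr (by
        rintro (h | h)
        · exact hu h
        · exact hv h)
      refine ⟨e, w, fun _ _ => ⟨he, hj.symm, ?_, fun h => absurd h hw⟩⟩
      rw [dN v hw]
      by_cases hwW : w ∈ W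
      · rw [dW w hwW]
        have := hN w
        omega
      · rw [dN w hwW]
        omega
  choose p q hpq using hpar
  have hmem : ∀ e, e ≠ e₀ → (L.IPath e₀ Set.univ (L.ter e₀) (L.ini e) ↔
      L.IPath e₀ Set.univ (L.ter e₀) (L.lab e)) := by
    intro e he
    constructor
    · intro h
      exact Relation.ReflTransGen.tail h ⟨Set.mem_univ _, Set.mem_univ _, e, he, Or.inl ⟨rfl, rfl⟩⟩
    · intro h
      exact Relation.ReflTransGen.tail h ⟨Set.mem_univ _, Set.mem_univ _, e, he, Or.inr ⟨rfl, rfl⟩⟩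
  refine uni_core L hcard e₀ {v | L.IPath e₀ Set.univ (L.ter e₀) v} W
    Relation.ReflTransGen.refl h2 ?_ hmem h3 p q d hpq s h5 h6
  intro h
  exact h2 (Relation.ReflTransGen.trans h (h4 _ h3).mono.symm)

end Pool.Agent.TH625.LOG
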